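import Mathlib
import Pool.Agent.H302R2.Deg2Main

/-!
# Heilbronn functions of degree two and determinant one on 2-hyperelementary groups
-/

set_option autoImplicit false
set_option linter.unusedSectionVars false

namespace Pool.Agent.Q7.TZ

open Subgroup Pool.Agent.H302R2

/-- a sum of a linear character and its inverse -/
def SStr {U : Type} [Group U] (θ : U → ℂ) : Prop :=
  ∃ l : U →* ℂˣ, ∀ u, θ u = ((l u : ℂˣ) : ℂ) + (((l u)⁻¹ : ℂˣ) : ℂ)

/-- the character of a symplectic representation induced from a subgroup of index two -/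
def DStr {U : Type} [Group U] (θ : U → ℂ) : Prop :=
  ∃ (A : Subgroup U) (l : A →* ℂˣ) (w : U), w ∉ A ∧ (∀ u, u ∉ A → w * u ∈ A) ∧
    (∀ a : A, θ a = ((l a : ℂˣ) : ℂ) + (((l a)⁻¹ : ℂˣ) : ℂ)) ∧ (∀ u, u ∉ A → θ u = 0) ∧
    (∀ a (ha : a ∈ A), ∃ hb : w * a * w⁻¹ ∈ A, l ⟨w * a * w⁻¹, hb⟩ = (l ⟨a, ha⟩)⁻¹) ∧
    ∃ h : w * w ∈ A, ((l ⟨w * w, h⟩ : ℂˣ) : ℂ) = -1

lemma SStr.pull {U V : Type} [Group U] [Group V] {θ : V → ℂ} (h : SStr θ) (f : U →* V) :
    SStr (fun u => θ (f u)) := by
  obtain ⟨l, hl⟩ := h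
  exact ⟨l.comp f, fun u => hl (f u)⟩

lemma DStr.pull {U V : Type} [Group U] [Group V] {θ : V → ℂ} (h : DStr θ) (f : U →* V)
    (hf : Function.Surjective f) : DStr (fun u => θ (f u)) := by
  obtain ⟨A, l, w, hw, h2, h3, h4, h5, h6, h7⟩ := h
  obtain ⟨v, rfl⟩ := hf w
  let g : A.comap f →* A := (f.comp (A.comap f).subtype).codRestrict A fun x => x.2
  have hg : ∀ x : A.comap f, g x = ⟨f x, x.2⟩ := fun x => rfl
  refine ⟨A.comap f, l.comp g, v, hw, fun u hu => ?_, fun a => ?_, fun u hu => h4 _ hu, ?_, ?_⟩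
  · change f (v * u) ∈ A
    rw [map_mul]
    exact h2 _ hu
  · exact h3 (g a)
  · intro a ha
    obtain ⟨hb, hb'⟩ := h5 (f a) ha
    have hb2 : v * a * v⁻¹ ∈ A.comap f := by
      change f (v * a * v⁻¹) ∈ A
      rw [map_mul, map_mul, map_inv]
      exact hb
    refine ⟨hb2, ?_⟩
    rw [MonoidHom.comp_apply, MonoidHom.comp_apply, hg, hg]
    rw [← hb']
    congr 1
    apply Subtype.ext
    change f (v * a * v⁻¹) = f v * f a * (f v)⁻¹
    rw [map_mul, map_mul, map_inv]
  · have h8 : v * v ∈ A.comap f := by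
      change f (v * v) ∈ A
      rw [map_mul]
      exact h6
    refine ⟨h8, ?_⟩
    rw [MonoidHom.comp_apply, hg, ← h7]
    congr 2
    apply Subtype.ext
    exact map_mul f v v

section

variable {U : Type} [Group U] [Finite U] {θ : U → ℂ}

lemma dd_rel {θ : U → ℂ} (hd : ∀ g, dd θ g = 1) (g : U) : θ g ^ 2 = 2 + θ (g ^ 2) := by
  have := hd g
  unfold dd at this
  linear_combination 2 * this

lemma core (hθ : IsHeilbronn θ) (h1 : θ 1 = 2) (hd : ∀ g, dd θ g = 1) {x : U} {a b : ℂ}
    (hab : a ≠ b) (hs : θ x = a + b) (hp : a * b = 1)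
    (hx : ∀ u, u * x * u⁻¹ = x ∨ u * x * u⁻¹ = x⁻¹)
    (hno : ∀ u, u * x * u⁻¹ = x⁻¹ → θ u ^ 2 = 4 → u * x * u⁻¹ = x) : SStr θ ∨ DStr θ := by
  by_cases hall : ∀ g : U, g * x = x * g
  · left
    obtain ⟨ψ, φ, h2, -⟩ := hθ.split h1 hall hab hs (by rw [hd, hp])
    refine ⟨ψ, fun u => ?_⟩
    have h3 := dd_of_sum h2 u
    rw [hd] at h3
    rw [h2 u]
    congr 1
    rw [Units.val_inv_eq_inv_val]
    exact eq_inv_of_mul_eq_one_right h3.symm
  right
  push Not at hall
  obtain ⟨w, hw⟩ := hall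
  let A : Subgroup U := Subgroup.centralizer {x}
  have hA : ∀ {u : U}, u ∈ A ↔ u * x = x * u := by
    intro u
    rw [Subgroup.mem_centralizer_singleton_iff]
  have hinv : ∀ u, u ∉ A → u * x * u⁻¹ = x⁻¹ := by
    intro u hu
    rcases hx u with h | h
    · exact absurd (hA.mpr (mul_inv_eq_iff_eq_mul.mp h)) hu
    · exact h
  have hnx : ∀ u, u ∉ A → u * x * u⁻¹ ≠ x := by
    intro u hu h
    exact hu (hA.mpr (mul_inv_eq_iff_eq_mul.mp h))
  have hxA : x ∈ A := hA.mpr rfl
  have hwA : w ∉ A := fun h => hw (hA.mp h)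
  -- products of two elements outside
  have hprod : ∀ u v, u ∉ A → v ∉ A → u * v ∈ A := by
    intro u v hu hv
    rw [hA]
    have e1 := hinv u hu
    have e2 := hinv v hv
    have e3 : v * x = x⁻¹ * v := mul_inv_eq_iff_eq_mul.mp e2
    have e4 : u * x⁻¹ = x * u := by
      have : (u * x * u⁻¹)⁻¹ = x := by rw [e1, inv_inv]
      rw [mul_inv_rev, mul_inv_rev, inv_inv, ← mul_assoc] at this
      exact mul_inv_eq_iff_eq_mul.mp this
    rw [mul_assoc, e3, ← mul_assoc, e4, mul_assoc]
  -- conjugates of elements of `A`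
  have hcj : ∀ u, u ∉ A → ∀ c ∈ A, u * c * u⁻¹ ∈ A := by
    intro u hu c hc
    have hu' : u⁻¹ ∉ A := fun h => hu (by simpa using A.inv_mem h)
    have hcu : c * u⁻¹ ∉ A := by
      intro h
      apply hu'
      have := A.mul_mem (A.inv_mem hc) h
      rwa [inv_mul_cancel_left] at this
    rw [mul_assoc]
    exact hprod _ _ hu hcu
  have hA' : IsHeilbronn (fun g : A => θ g) := hθ.comp A.subtype
  have hdA : ∀ g : A, dd (fun g : A => θ g) g = 1 := fun g => hd g
  obtain ⟨l, φ, h2, h3⟩ := hA'.split (z := ⟨x, hxA⟩) h1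
    (fun g => Subtype.ext (hA.mp g.2)) hab hs (by rw [hdA, hp])
  have hφ : ∀ g : A, ((φ g : ℂˣ) : ℂ) = (((l g)⁻¹ : ℂˣ) : ℂ) := by
    intro g
    have h4 := dd_of_sum h2 g
    rw [hdA] at h4
    rw [Units.val_inv_eq_inv_val]
    exact eq_inv_of_mul_eq_one_right h4.symm
  have hab' : a - b ≠ 0 := sub_ne_zero.mpr hab
  have hx2 : θ (x ^ 2) = a ^ 2 + b ^ 2 := by
    have := dd_rel hd x
    rw [hs] at this
    linear_combination -this + 2 * hp
  have hlx : ((l ⟨x, hxA⟩ : ℂˣ) : ℂ) = a := by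
    rw [h3]
    simp only
    rw [div_eq_iff hab']
    have e : ((⟨x, hxA⟩ * ⟨x, hxA⟩ : A) : U) = x ^ 2 := by rw [sq]; rfl
    rw [e, hx2, hs]
    ring
  have hφx : ((φ ⟨x, hxA⟩ : ℂˣ) : ℂ) = b := by
    have h4 := h2 ⟨x, hxA⟩
    simp only at h4
    rw [hs, hlx] at h4
    exact (add_left_cancel h4).symm
  have key : ∀ u, (hu : u ∉ A) → ∀ c (hc : c ∈ A), l ⟨u * c * u⁻¹, hcj u hu c hc⟩ = (l ⟨c, hc⟩)⁻¹ := by
    intro u hu c hc
    apply Units.ext
    rw [h3]
    simp only
    rw [div_eq_iff hab']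
    have e1 : u⁻¹ * x * u = x⁻¹ := by
      have := hinv u hu
      have h5 : x * u = u * x⁻¹ := by
        have h6 : (u * x * u⁻¹)⁻¹ = x := by rw [this, inv_inv]
        rw [mul_inv_rev, mul_inv_rev, inv_inv, ← mul_assoc] at h6
        exact (mul_inv_eq_iff_eq_mul.mp h6).symm
      rw [mul_assoc, h5, inv_mul_cancel_left]
    have e2 : ((⟨u * c * u⁻¹, hcj u hu c hc⟩ * ⟨x, hxA⟩ : A) : U)
        = u * (c * x⁻¹) * u⁻¹ := by
      change u * c * u⁻¹ * x = u * (c * x⁻¹) * u⁻¹
      rw [← e1]; group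
    have e3 : θ (c * x⁻¹) = ((l ⟨c, hc⟩ : ℂˣ) : ℂ) * b + (((l ⟨c, hc⟩)⁻¹ : ℂˣ) : ℂ) * a := by
      have h5 := h2 (⟨c, hc⟩ * ⟨x, hxA⟩⁻¹)
      have ha1 : a⁻¹ = b := (eq_inv_of_mul_eq_one_right hp).symm
      have hb1 : b⁻¹ = a := (eq_inv_of_mul_eq_one_left hp).symm
      have h7 : ((l (⟨c, hc⟩ * ⟨x, hxA⟩⁻¹) : ℂˣ) : ℂ) = ((l ⟨c, hc⟩ : ℂˣ) : ℂ) * b := by
        rw [map_mul, map_inv, Units.val_mul, Units.val_inv_eq_inv_val, hlx, ha1]
      have h8 : ((φ (⟨c, hc⟩ * ⟨x, hxA⟩⁻¹) : ℂˣ) : ℂ) = (((l ⟨c, hc⟩)⁻¹ : ℂˣ) : ℂ) * a := by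
        rw [map_mul, map_inv, Units.val_mul, Units.val_inv_eq_inv_val, hφx, hb1, hφ]
      rw [← h7, ← h8]
      exact h5
    have e4 : θ (u * c * u⁻¹) = ((l ⟨c, hc⟩ : ℂˣ) : ℂ) + (((l ⟨c, hc⟩)⁻¹ : ℂˣ) : ℂ) := by
      rw [hθ.conj, ← hφ]
      exact h2 ⟨c, hc⟩
    rw [e2, hθ.conj, e3, e4]
    ring
  have hsq : ∀ u, (hu : u ∉ A) → θ u = 0 ∧ ((l ⟨u * u, hprod u u hu hu⟩ : ℂˣ) : ℂ) = -1 := by
    intro u hu
    have h4 := key u hu (u * u) (hprod u u hu hu)
    have h5 : (⟨u * (u * u) * u⁻¹, hcj u hu _ (hprod u u hu hu)⟩ : A)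
        = ⟨u * u, hprod u u hu hu⟩ := by
      apply Subtype.ext
      change u * (u * u) * u⁻¹ = u * u
      group
    rw [h5] at h4
    set y : ℂˣ := l ⟨u * u, hprod u u hu hu⟩ with hy
    have h6 : (y : ℂ) * (y : ℂ) = 1 := by
      have := congrArg (fun t : ℂˣ => ((t * y : ℂˣ) : ℂ)) h4
      simpa using this
    have h7 : θ (u ^ 2) = y + ((y⁻¹ : ℂˣ) : ℂ) := by
      have h8 := h2 ⟨u * u, hprod u u hu hu⟩
      rw [hφ] at h8
      rw [sq]
      exact h8
    have h8 : ((y⁻¹ : ℂˣ) : ℂ) = y := by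
      rw [← h4]
    have h9 := dd_rel hd u
    rw [h7, h8] at h9
    rcases mul_self_eq_one_iff.mp h6 with h | h
    · exfalso
      rw [h] at h9
      exact hnx u hu (hno u (hinv u hu) (by rw [h9]; norm_num))
    · refine ⟨?_, h⟩
      rw [h] at h9
      have : θ u ^ 2 = 0 := by rw [h9]; norm_num
      exact pow_eq_zero_iff (two_ne_zero) |>.mp this
  refine ⟨A, l, w, hwA, fun u hu => hprod w u hwA hu, fun c => ?_, fun u hu => (hsq u hu).1,
    fun c hc => ⟨hcj w hwA c hc, key w hwA c hc⟩, hprod w w hwA hwA, (hsq w hwA).2⟩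
  rw [← hφ]
  exact h2 c


/-- the twist by a sign on `U × ℤˣ` -/
lemma exists_twist (hθ : IsHeilbronn θ) (ε : ℤˣ) :
    IsHeilbronn (fun e : U × ℤˣ => θ e.1 * (if ε = 1 then 1 else ((e.2 : ℤ) : ℂ))) := by
  have h1 : IsHeilbronn (fun e : U × ℤˣ => θ e.1) := hθ.comp (MonoidHom.fst U ℤˣ)
  rcases Int.units_eq_one_or ε with rfl | rfl
  · convert h1 using 2 with e
    simp
  · have h2 := h1.twist (signToC.comp (MonoidHom.snd U ℤˣ))
    convert h2 using 2 with e
    rw [if_neg (by decide)]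
    congr 1
    rcases Int.units_eq_one_or e.2 with h | h
    · simp [h]
    · simp [h, signToC]

/-- The product of two involutions which act by the same sign is in the kernel. -/
lemma inv_pair (hθ : IsHeilbronn θ) {x y : U} (hx2 : x * x = 1) (hy2 : y * y = 1)
    (hx : θ x = θ 1 ∨ θ x = -θ 1) (hy : θ y = θ x) : θ (x * y) = θ 1 := by
  rcases hx with hx | hx
  · exact hθ.mul_of_invol hx2 hy2 hx (hy.trans hx)
  · have h1 := exists_twist hθ (-1)
    have h2 := h1.mul_of_invol (x := (x, -1)) (y := (y, -1)) (by simp [hx2]) (by simp [hy2])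
      (by simp [hx]) (by simp [hy, hx])
    simpa using h2

lemma exists_half {x : U} (hodd : Odd (orderOf x)) (i : ℤ) : ∃ k : ℤ, x ^ i = x ^ (2 * k) := by
  obtain ⟨m, hm⟩ := hodd
  refine ⟨i * (m + 1), ?_⟩
  have h1 : x ^ (2 * m + 1 : ℤ) = 1 := by
    have := pow_orderOf_eq_one x
    rw [hm] at this
    exact_mod_cast this
  have h2 : (2 * (i * (m + 1)) : ℤ) = i + (2 * m + 1) * i := by ring
  rw [h2, zpow_add, zpow_mul, h1, one_zpow, mul_one]

lemma noinv (hθ : IsHeilbronn θ) (h1 : θ 1 = 2) (hd : ∀ g, dd θ g = 1) {x u : U}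
    (hodd : Odd (orderOf x)) (hu : u * x * u⁻¹ = x⁻¹) (h4 : θ u ^ 2 = 4) : θ x = 2 := by
  classical
  -- the eigenvalues of `u`
  obtain ⟨a, b, -, -, hab, hs, hpow⟩ := hθ.two_eig h1 u
  rw [hd] at hab
  have h5 : (a - b) ^ 2 = 0 := by
    rw [hs] at h4
    linear_combination h4 + 4 * hab
  have h6 : a = b := sub_eq_zero.mp (pow_eq_zero_iff two_ne_zero |>.mp h5)
  subst h6
  obtain ⟨ε, hε⟩ : ∃ ε : ℤˣ, a = ((ε : ℤ) : ℂ) := by
    rcases mul_self_eq_one_iff.mp hab.symm with h | h
    · exact ⟨1, by simp [h]⟩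
    · exact ⟨-1, by simp [h]⟩
  have hεo : ∀ j : ℤ, Odd j → θ (u ^ j) = 2 * ((ε : ℤ) : ℂ) := by
    intro j hj
    rw [hpow j, hε]
    rcases Int.units_eq_one_or ε with rfl | rfl
    · simp; norm_num
    · simp only [Units.val_neg, Units.val_one, Int.cast_neg, Int.cast_one]
      rw [hj.neg_one_zpow]
      norm_num
  -- commutation
  have hc1 : ∀ i : ℤ, u * x ^ i * u⁻¹ = x ^ (-i) := by
    intro i
    have := conj_zpow (a := u) (b := x) (i := i)
    rw [← this, hu, inv_zpow, zpow_neg]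
  have hc2 : ∀ i : ℤ, u⁻¹ * x ^ i * u = x ^ (-i) := by
    intro i
    have h7 := hc1 (-i)
    rw [neg_neg] at h7
    rw [← h7]; group
  have hc : ∀ (j : ℤ) (i : ℤ), u ^ j * x ^ i = x ^ ((Int.negOnePow j : ℤ) * i) * u ^ j := by
    intro j
    induction j using Int.induction_on with
    | zero => intro i; simp
    | succ j ih =>
      intro i
      rw [zpow_add_one, mul_assoc]
      have h7 : u * x ^ i = x ^ (-i) * u := mul_inv_eq_iff_eq_mul.mp (hc1 i)
      rw [h7, ← mul_assoc, ih, Int.negOnePow_succ, mul_assoc]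
      congr 2
      simp
    | pred j ih =>
      intro i
      rw [zpow_sub_one, mul_assoc]
      have h7 : u⁻¹ * x ^ i = x ^ (-i) * u⁻¹ := by
        rw [← hc2 i]; group
      rw [h7, ← mul_assoc, ih, Int.negOnePow_sub, mul_assoc]
      congr 2
      simp
  let S : Set (U × ℤˣ) := {(x, 1), (u, -1)}
  let E := Subgroup.closure S
  have hdesc : ∀ e ∈ E, ∃ i j : ℤ, e = (x ^ i * u ^ j, Int.negOnePow j) := by
    intro e he
    induction he using Subgroup.closure_induction with
    | mem e he =>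
      rcases he with rfl | he
      · exact ⟨1, 0, by simp⟩
      · rw [Set.mem_singleton_iff.mp he]
        exact ⟨0, 1, by simp⟩
    | one => exact ⟨0, 0, by simp; rfl⟩
    | mul a b _ _ ha hb =>
      obtain ⟨i, j, rfl⟩ := ha
      obtain ⟨k, l, rfl⟩ := hb
      refine ⟨i + (Int.negOnePow j : ℤ) * k, j + l, ?_⟩
      rw [Prod.mk_mul_mk, Int.negOnePow_add, zpow_add, zpow_add]
      congr 1
      rw [mul_assoc (x ^ i), ← mul_assoc (u ^ j), hc]
      simp only [mul_assoc]
    | inv a _ ha =>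
      obtain ⟨i, j, rfl⟩ := ha
      refine ⟨(Int.negOnePow (-j) : ℤ) * (-i), -j, ?_⟩
      rw [Prod.inv_mk, mul_inv_rev, ← zpow_neg, ← zpow_neg, hc]
      congr 1
      rw [Int.negOnePow_neg]
      rcases Int.units_eq_one_or (Int.negOnePow j) with h | h <;> simp [h]
  have h7 := exists_twist hθ ε
  have h8 := h7.kernel_lemma_sign (E := E) E.subtype ((MonoidHom.snd U ℤˣ).comp E.subtype)
    (e₀ := ⟨(u, -1), Subgroup.subset_closure (by simp [S])⟩) rfl ?_
    ⟨(x, 1), Subgroup.subset_closure (by simp [S])⟩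
  · simp only [Subgroup.coe_subtype, Prod.fst_one, Prod.snd_one] at h8
    have h9 : (if ε = 1 then (1 : ℂ) else (((1 : ℤˣ) : ℤ) : ℂ)) = 1 := by split_ifs <;> simp
    rw [h9, mul_one, mul_one, h1] at h8
    exact h8
  · rintro ⟨e, he⟩ hχ
    obtain ⟨i, j, rfl⟩ := hdesc e he
    simp only [MonoidHom.coe_comp, Subgroup.coe_subtype, Function.comp_apply,
      MonoidHom.coe_snd] at hχ
    have hj : Odd j := Int.negOnePow_eq_neg_one_iff j |>.mp hχ
    simp only [Subgroup.coe_subtype, Prod.fst_one, Prod.snd_one]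
    obtain ⟨k, hk⟩ := exists_half hodd i
    have e1 : x ^ i * u ^ j = x ^ k * u ^ j * (x ^ k)⁻¹ := by
      rw [← zpow_neg, mul_assoc, hc, hχ, ← mul_assoc, ← zpow_add, hk]
      congr 2
      simp; ring
    rw [e1, hθ.conj, hεo j hj, hχ, h1]
    rcases Int.units_eq_one_or ε with rfl | rfl
    · simp
    · simp

lemma sstr_of_split (hd : ∀ g, dd θ g = 1) {ψ φ : U →* ℂˣ}
    (h : ∀ g, θ g = (ψ g : ℂˣ) + (φ g : ℂˣ)) : SStr θ := by
  refine ⟨ψ, fun u => ?_⟩
  have h3 := dd_of_sum h u
  rw [hd] at h3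
  rw [h u]
  congr 1
  rw [Units.val_inv_eq_inv_val]
  exact eq_inv_of_mul_eq_one_right h3.symm

/-- a quotient -/
lemma str_quot (hθ : IsHeilbronn θ) (h1 : θ 1 = 2) (hd : ∀ g, dd θ g = 1) (Q : Subgroup U)
    [Q.Normal] (hQ : ∀ y : U, ∀ n ∈ Q, θ (y * n) = θ y)
    (ih : ∀ (θ' : U ⧸ Q → ℂ) (_ : IsHeilbronn θ') (_ : θ' 1 = 2) (_ : ∀ g, dd θ' g = 1),
      SStr θ' ∨ DStr θ') : SStr θ ∨ DStr θ := by
  have hdd : ∀ g : U ⧸ Q, dd (descend Q θ) g = 1 := by
    intro g
    induction g using QuotientGroup.induction_on with | _ g => ?_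
    have := hd g
    unfold dd at this ⊢
    rw [← QuotientGroup.mk_pow, descend_mk hQ, descend_mk hQ]
    exact this
  have e : (fun u : U => descend Q θ (QuotientGroup.mk' Q u)) = θ :=
    funext fun u => descend_mk hQ u
  rcases ih (descend Q θ) (hθ.descend Q hQ) (by rw [← QuotientGroup.mk_one, descend_mk hQ, h1])
    hdd with h | h
  · left
    rw [← e]
    exact h.pull (QuotientGroup.mk' Q)
  · right
    rw [← e]
    exact h.pull (QuotientGroup.mk' Q) (QuotientGroup.mk'_surjective Q)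

theorem hyp_str : ∀ (N : ℕ) (U : Type) [Group U] [Finite U], Nat.card U = N → Hyp U →
    ∀ (θ : U → ℂ) (_ : IsHeilbronn θ) (_ : θ 1 = 2) (_ : ∀ g, dd θ g = 1),
      SStr θ ∨ DStr θ := by
  intro N
  induction N using Nat.strong_induction_on with
  | _ N ih =>
    intro U _ _ hUN hU θ hθ h1 hd
    classical
    by_cases hab : ∀ a b : U, a * b = b * a
    · obtain ⟨ψ, φ, h⟩ := hθ.comm_two hab h1
      exact Or.inl (sstr_of_split hd h)
    have hU' := hU
    obtain ⟨c, hodd, hn, hp⟩ := hU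
    by_cases hc : c = 1
    · -- a two-group
      subst hc
      have h2 : IsPGroup 2 U := by
        intro u
        obtain ⟨k, hk⟩ := hp u
        refine ⟨k, ?_⟩
        simpa using hk
      have : Fact (Nat.Prime 2) := ⟨Nat.prime_two⟩
      by_cases hcen : ∀ g : U, (∀ u, u * g = g * u) → θ g ^ 2 = 4
      swap
      · push Not at hcen
        obtain ⟨g, hg, hg4⟩ := hcen
        obtain ⟨a, b, -, -, hab', hs, -⟩ := hθ.two_eig h1 g
        have hne : a ≠ b := by
          rintro rfl
          apply hg4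
          rw [hd] at hab'
          rw [hs]
          linear_combination -4 * hab'
        obtain ⟨ψ, φ, h3, -⟩ := hθ.split h1 hg hne hs hab'
        exact Or.inl (sstr_of_split hd h3)
      by_cases hz : ∃ z : U, z ≠ 1 ∧ (∀ u, u * z = z * u) ∧ θ z = 2
      · obtain ⟨z, hz1, hzc, hz2⟩ := hz
        have hzcen : z ∈ Subgroup.center U := Subgroup.mem_center_iff.mpr hzc
        have hQn := zpowers_normal_of_center hzcen
        have hQ : ∀ y : U, ∀ n ∈ Subgroup.zpowers z, θ (y * n) = θ y := by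
          rintro y _ ⟨k, rfl⟩
          have h3 : θ (z ^ k) = 2 * 1 := by
            obtain ⟨a, b, ha, hb, hab', hs, hpow⟩ := hθ.two_eig h1 z
            rw [hz2] at hs
            obtain ⟨rfl, rfl⟩ := norm_avg_eq ha hb (ζ := 1) (by simp) (by rw [← hs]; ring)
            rw [hpow k]
            simp; norm_num
          have h4 := hθ.two_scalar h1 (x := y) (z := z ^ k)
            ((show Commute y z from hzc y).zpow_right k).eq (ζ := 1) (by simp) h3
          rw [h4, one_mul]
        exact str_quot hθ h1 hd _ hQ (ih _ (by rw [← hUN]; exact card_quotient_zpowers_lt hz1) _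
          rfl (hU'.of_surjective (QuotientGroup.mk' _) (QuotientGroup.mk'_surjective _)))
      · push Not at hz
        have hm2 : ∀ z : U, z ≠ 1 → (∀ u, u * z = z * u) → θ z = 2 * (-1) := by
          intro z hz1 hzc
          have h3 := hcen z hzc
          have h4 := hz z hz1 hzc
          have h5 : (θ z - 2) * (θ z + 2) = 0 := by linear_combination h3
          rcases mul_eq_zero.mp h5 with h | h
          · exact absurd (sub_eq_zero.mp h) h4
          · linear_combination h
        have hsc : ∀ z : U, z ≠ 1 → (∀ u, u * z = z * u) → ∀ y, θ (y * z) = - θ y := by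
          intro z hz1 hzc y
          rw [hθ.two_scalar h1 (hzc y) (ζ := -1) (by simp) (hm2 z hz1 hzc)]
          ring
        have hinj : ∀ z z' : U, z ≠ 1 → z' ≠ 1 → (∀ u, u * z = z * u) → (∀ u, u * z' = z' * u) →
            z * z' = 1 := by
          intro z z' hz1 hz1' hzc hzc'
          by_contra hne
          have h3 := hm2 (z * z') hne (fun u => by rw [← mul_assoc, hzc, mul_assoc, hzc', ← mul_assoc])
          rw [hsc z' hz1' hzc' z, hm2 z hz1 hzc] at h3
          norm_num at h3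
        obtain ⟨x, ⟨y, hy⟩, hx⟩ := exists_second_center h2 hab
        -- `u x u⁻¹ = x z_u`
        have hcomm : ∀ u : U, u * x * u⁻¹ = x * (x⁻¹ * u * x * u⁻¹) := by intro u; group
        have hzu : ∀ u v : U, v * (x⁻¹ * u * x * u⁻¹) = (x⁻¹ * u * x * u⁻¹) * v := by
          intro u v
          have h3 := hx u⁻¹
          rw [inv_inv] at h3
          exact Subgroup.mem_center_iff.mp h3 v
        have hyne : x⁻¹ * y * x * y⁻¹ ≠ 1 := by
          intro h
          apply hy
          have h3 := hcomm y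
          rw [h, mul_one] at h3
          exact (mul_inv_eq_iff_eq_mul.mp h3).symm
        have hx0 : θ x = 0 := by
          have h3 := hsc _ hyne (hzu y) x
          rw [← hcomm, hθ.conj] at h3
          have h4 : (2 : ℂ) * θ x = 0 := by linear_combination h3
          exact (mul_eq_zero.mp h4).resolve_left two_ne_zero
        have hx2 : θ (x ^ 2) = -2 := by
          have := dd_rel hd x
          rw [hx0] at this
          linear_combination -this
        have hx2ne : x ^ 2 ≠ 1 := by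
          intro h
          rw [h, h1] at hx2
          norm_num at hx2
        have hx2c : ∀ u : U, u * x ^ 2 = x ^ 2 * u := by
          intro u
          by_cases h : x⁻¹ * u * x * u⁻¹ = 1
          · have h3 := hcomm u
            rw [h, mul_one] at h3
            have h4 : Commute u x := mul_inv_eq_iff_eq_mul.mp h3
            exact (h4.pow_right 2).eq
          · have h3 := hinj _ _ h h (hzu u) (hzu u)
            set z := x⁻¹ * u * x * u⁻¹ with hzdef
            have h4 : u * x ^ 2 * u⁻¹ = x ^ 2 := by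
              have h5 : u * x ^ 2 * u⁻¹ = (u * x * u⁻¹) * (u * x * u⁻¹) := by rw [sq]; group
              rw [h5, hcomm u, ← hzdef, mul_assoc x, ← mul_assoc z, ← hzu u x, ← hzdef, mul_assoc x z z,
                h3, mul_one, sq]
            exact mul_inv_eq_iff_eq_mul.mp h4
        obtain ⟨a, b, -, -, hab', hs, -⟩ := hθ.two_eig h1 x
        rw [hd] at hab'
        rw [hx0] at hs
        have hne : a ≠ b := by
          rintro rfl
          have h3 : a = 0 := by
            have : (2 : ℂ) * a = 0 := by linear_combination -hs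
            exact (mul_eq_zero.mp this).resolve_left two_ne_zero
          rw [h3] at hab'
          norm_num at hab'
        refine core hθ h1 hd hne (by rw [hx0]; exact hs) hab'.symm (fun u => ?_) ?_
        · by_cases h : x⁻¹ * u * x * u⁻¹ = 1
          · left
            rw [hcomm u, h, mul_one]
          · right
            have h3 := hinj _ _ h hx2ne (hzu u) hx2c
            rw [hcomm u, eq_inv_of_mul_eq_one_left h3, sq, mul_inv_rev, mul_inv_cancel_left]
        · intro u hu h4
          exfalso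
          have h3 : x * u * x⁻¹ = u * x ^ 2 := by
            have h5 : u * x = x⁻¹ * u := mul_inv_eq_iff_eq_mul.mp hu
            have h6 : u * x⁻¹ = x * u := by
              have : (u * x * u⁻¹)⁻¹ = x := by rw [hu, inv_inv]
              rw [mul_inv_rev, mul_inv_rev, inv_inv, ← mul_assoc] at this
              exact mul_inv_eq_iff_eq_mul.mp this
            rw [mul_assoc, h6, hx2c, sq, mul_assoc]
          have h5 := hsc _ hx2ne hx2c u
          rw [← h3, hθ.conj] at h5
          have h6 : (2 : ℂ) * θ u = 0 := by linear_combination h5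
          rw [(mul_eq_zero.mp h6).resolve_left two_ne_zero] at h4
          norm_num at h4
    · -- a normal subgroup of odd prime order
      have hm : orderOf c ≠ 1 := by rwa [ne_eq, orderOf_eq_one_iff]
      obtain ⟨q, hq, m, hm⟩ := Nat.exists_prime_and_dvd hm
      have hpos : 0 < orderOf c := orderOf_pos c
      have hm0 : 0 < m := by
        rcases Nat.eq_zero_or_pos m with h | h
        · rw [h, mul_zero] at hm; omega
        · exact h
      obtain ⟨z, hz, hzn⟩ : ∃ z : U, orderOf z = q ∧ ∀ u : U, u * z * u⁻¹ ∈ Subgroup.zpowers z := by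
        refine ⟨c ^ m, ?_, fun u => ?_⟩
        · rw [orderOf_pow_of_dvd hm0.ne' ⟨q, by rw [hm, mul_comm]⟩, hm, Nat.mul_div_cancel _ hm0]
        · obtain ⟨i, hi⟩ := hn u
          simp only at hi
          refine ⟨i, ?_⟩
          simp only
          rw [← conj_pow, ← hi, ← zpow_natCast, ← zpow_natCast, ← zpow_mul, ← zpow_mul, mul_comm]
      have hqodd : Odd q := Nat.Odd.of_mul_left (n := m) (by rw [← hm]; exact hodd)
      have hz1 : z ≠ 1 := by
        rintro rfl
        rw [orderOf_one] at hz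
        rw [← hz] at hq
        exact Nat.not_prime_one hq
      set Q := Subgroup.zpowers z with hQ
      have hQn : Q.Normal := ⟨fun x hx u => conj_zpowers hzn u hx⟩
      obtain ⟨ψ, φ, h⟩ := (hθ.comp Q.subtype).comm_two (zpowers_comm z) (by simpa using h1)
      have hprod : ∀ w : Q, ((ψ w : ℂˣ) : ℂ) * ((φ w : ℂˣ) : ℂ) = 1 := by
        intro w
        rw [← dd_of_sum h w]
        exact hd w
      by_cases hψ : ψ ⟨z, Subgroup.mem_zpowers z⟩ = 1
      · have hψ' : ∀ w : Q, ψ w = 1 := by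
          rintro ⟨_, k, rfl⟩
          have : (⟨z ^ k, ⟨k, rfl⟩⟩ : Q) = ⟨z, Subgroup.mem_zpowers z⟩ ^ k := by
            apply Subtype.ext; simp
          simp only
          rw [this, map_zpow, hψ, one_zpow]
        have hzθ : ∀ w ∈ Q, θ w = θ 1 := by
          intro w hw
          have h2 := h ⟨w, hw⟩
          have h3 := hprod ⟨w, hw⟩
          rw [hψ', Units.val_one, one_mul] at h3
          rw [hψ', h3] at h2
          simp only [Subgroup.coe_subtype] at h2
          rw [h2, h1, Units.val_one]; norm_num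
        have hZθ : ∀ y : U, ∀ n ∈ Q, θ (y * n) = θ y := fun y n hn' =>
          hθ.const_cosets (by rw [hz]; exact hq) hzn hzθ y hn'
        exact str_quot hθ h1 hd _ hZθ (ih _ (by rw [← hUN]; exact card_quotient_zpowers_lt hz1) _
          rfl (hU'.of_surjective (QuotientGroup.mk' _) (QuotientGroup.mk'_surjective _)))
      · set a : ℂˣ := ψ ⟨z, Subgroup.mem_zpowers z⟩ with ha
        set b : ℂˣ := φ ⟨z, Subgroup.mem_zpowers z⟩ with hb
        have hab1 : a * b = 1 := Units.ext (hprod ⟨z, Subgroup.mem_zpowers z⟩)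
        have haq : a ^ q = 1 := by
          rw [ha, ← map_pow]
          have : (⟨z, Subgroup.mem_zpowers z⟩ : Q) ^ q = 1 := by
            apply Subtype.ext
            change z ^ q = 1
            rw [← hz]; exact pow_orderOf_eq_one z
          rw [this, map_one]
        have hao : orderOf a = q := by
          have := Fact.mk hq
          exact orderOf_eq_prime haq hψ
        have hzk : ∀ k : ℤ, a ^ k = 1 → z ^ k = 1 := by
          intro k hk
          rw [← orderOf_dvd_iff_zpow_eq_one, hz, ← hao]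
          exact orderOf_dvd_iff_zpow_eq_one.mpr hk
        have hzθ : θ z = (a : ℂ) + (b : ℂ) := h ⟨z, Subgroup.mem_zpowers z⟩
        have habne : (a : ℂ) ≠ (b : ℂ) := by
          intro h3
          have h4 : a = b := Units.ext h3
          rw [← h4] at hab1
          have h5 : a ^ 2 = 1 := by rw [sq]; exact hab1
          have h6 := orderOf_dvd_of_pow_eq_one h5
          rw [hao] at h6
          have h7 := (Nat.prime_dvd_prime_iff_eq hq Nat.prime_two).mp h6
          rw [h7] at hqodd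
          exact absurd hqodd (by decide)
        refine core hθ h1 hd habne hzθ (by rw [← Units.val_mul, hab1, Units.val_one])
          (fun u => ?_) ?_
        · obtain ⟨j, hj⟩ := hzn u
          simp only at hj
          have h3 : θ (z ^ j) = ((a ^ j : ℂˣ) : ℂ) + ((b ^ j : ℂˣ) : ℂ) := by
            have h4 := h ⟨z ^ j, ⟨j, rfl⟩⟩
            have h5 : (⟨z ^ j, ⟨j, rfl⟩⟩ : Q) = ⟨z, Subgroup.mem_zpowers z⟩ ^ j := by
              apply Subtype.ext; simp
            rw [ha, hb, ← map_zpow, ← map_zpow, ← h5]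
            exact h4
          have h4 : θ (z ^ j) = θ z := by rw [hj, hθ.conj]
          rw [h4, hzθ] at h3
          have h6 : ((a ^ j : ℂˣ) : ℂ) * ((b ^ j : ℂˣ) : ℂ) = (a : ℂ) * (b : ℂ) := by
            rw [← Units.val_mul, ← Units.val_mul, ← mul_zpow, hab1, one_zpow]
          rcases pair_eq_of_sum_prod h3.symm h6 with ⟨h7, -⟩ | ⟨h7, -⟩
          · left
            have h8 : a ^ (j - 1) = 1 := by
              rw [zpow_sub_one, Units.ext h7, mul_inv_cancel]
            have h9 := hzk _ h8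
            rw [zpow_sub_one, mul_inv_eq_one] at h9
            rw [← hj, h9]
          · right
            have h8 : a ^ (j + 1) = 1 := by
              rw [zpow_add_one, Units.ext h7, mul_comm, hab1]
            have h9 := hzk _ h8
            rw [zpow_add_one] at h9
            rw [← hj, eq_inv_of_mul_eq_one_left h9]
        · intro u hu h4
          exfalso
          have h5 := noinv hθ h1 hd (by rw [hz]; exact hqodd) hu h4
          apply hψ
          rw [hzθ] at h5
          have h6 : ((a : ℂ) - 1) ^ 2 = 0 := by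
            have h7 : (a : ℂ) * (b : ℂ) = 1 := by rw [← Units.val_mul, hab1, Units.val_one]
            linear_combination (a : ℂ) * h5 - h7
          have h7 : (a : ℂ) = 1 := sub_eq_zero.mp (pow_eq_zero_iff two_ne_zero |>.mp h6)
          exact Units.ext h7

end

end Pool.Agent.Q7.TZ
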