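import Mathlib
import Pool.Agent.Q7.TZ.Str
import Pool.Agent.H541R3.ART.Irr

/-!
# Orthogonal representations and symplectic functions of degree two
-/

set_option autoImplicit false
set_option linter.unusedSectionVars false

namespace Pool.Agent.Q7.TZ

open Pool.Agent.H302R2 Pool.Agent.H541R3.ART

lemma even_of_skew {V : Type} [AddCommGroup V] [Module ℂ V] [FiniteDimensional ℂ V]
    (β : V →ₗ[ℂ] V →ₗ[ℂ] ℂ) (hsk : ∀ v w, β w v = -β v w) (hnd : ∀ v, (∀ w, β v w = 0) → v = 0) :
    Even (Module.finrank ℂ V) := by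
  classical
  let b := Module.finBasis ℂ V
  let M : Matrix (Fin (Module.finrank ℂ V)) (Fin (Module.finrank ℂ V)) ℂ := fun i j => β (b i) (b j)
  have hT : M.transpose = -M := by
    ext i j
    change β (b j) (b i) = -β (b i) (b j)
    exact hsk _ _
  have hdet : M.det ≠ 0 := by
    intro h
    obtain ⟨v, hv, hvM⟩ := Matrix.exists_vecMul_eq_zero_iff.mpr h
    apply hv
    have h1 : ∑ i, v i • b i = 0 := by
      apply hnd
      intro w
      have h2 : ∀ j, β (∑ i, v i • b i) (b j) = 0 := by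
        intro j
        have h3 := congrFun hvM j
        rw [map_sum, LinearMap.sum_apply]
        simp only [map_smul, LinearMap.smul_apply, smul_eq_mul]
        exact h3
      have h4 : β (∑ i, v i • b i) = 0 := b.ext h2
      rw [h4, LinearMap.zero_apply]
    funext i
    exact Fintype.linearIndependent_iff.mp b.linearIndependent v h1 i
  by_contra hodd
  rw [Nat.not_even_iff_odd] at hodd
  apply hdet
  have h1 : M.det = -M.det := by
    conv_lhs => rw [← Matrix.det_transpose, hT, Matrix.det_neg, Fintype.card_fin, hodd.neg_one_pow,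
      neg_one_mul]
  have h2 : (2 : ℂ) * M.det = 0 := by linear_combination h1
  exact (mul_eq_zero.mp h2).resolve_left two_ne_zero

section

variable {U : Type} [Group U] [Finite U] {V : Type} [AddCommGroup V] [Module ℂ V]
  [FiniteDimensional ℂ V] (σ : Representation ℂ U V)

/-- the vectors on which the subgroup `A` acts by the linear character `l` -/
def wsp (A : Subgroup U) (l : A →* ℂˣ) : Submodule ℂ V where
  carrier := {v | ∀ a : A, σ a v = ((l a : ℂˣ) : ℂ) • v}
  zero_mem' := by intro a; simp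
  add_mem' := by
    intro v w hv hw a
    rw [map_add, hv a, hw a, smul_add]
  smul_mem' := by
    intro c v hv a
    rw [map_smul, hv a, smul_comm]

lemma mem_wsp {A : Subgroup U} {l : A →* ℂˣ} {v : V} :
    v ∈ wsp σ A l ↔ ∀ a : A, σ a v = ((l a : ℂˣ) : ℂ) • v := Iff.rfl

/-- the projection onto these vectors -/
noncomputable def pro (A : Subgroup U) (l : A →* ℂˣ) : V →ₗ[ℂ] V :=
  (Nat.card A : ℂ)⁻¹ • ∑ᶠ a : A, (((l a)⁻¹ : ℂˣ) : ℂ) • σ a

lemma pro_eq (A : Subgroup U) [Fintype A] (l : A →* ℂˣ) :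
    pro σ A l = (Nat.card A : ℂ)⁻¹ • ∑ a : A, (((l a)⁻¹ : ℂˣ) : ℂ) • σ a := by
  rw [pro, finsum_eq_sum_of_fintype]

lemma cardA_ne (A : Subgroup U) : (Nat.card A : ℂ) ≠ 0 := by exact_mod_cast Nat.card_pos.ne'

lemma pro_mem (A : Subgroup U) (l : A →* ℂˣ) (v : V) : pro σ A l v ∈ wsp σ A l := by
  classical
  have : Fintype A := Fintype.ofFinite A
  intro c
  rw [pro_eq, LinearMap.smul_apply, LinearMap.sum_apply, map_smul, map_sum, smul_comm]
  congr 1
  rw [Finset.smul_sum, ← Equiv.sum_comp (Equiv.mulLeft c)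
    (fun a : A => ((l c : ℂˣ) : ℂ) • ((((l a)⁻¹ : ℂˣ) : ℂ) • σ a) v)]
  refine Finset.sum_congr rfl fun a _ => ?_
  rw [LinearMap.smul_apply, map_smul, Equiv.coe_mulLeft, LinearMap.smul_apply, smul_smul,
    Subgroup.coe_mul, map_mul σ, Module.End.mul_apply, map_mul l, mul_inv, Units.val_mul,
    ← mul_assoc, ← Units.val_mul, mul_inv_cancel, Units.val_one, one_mul]

lemma pro_of_mem (A : Subgroup U) (l : A →* ℂˣ) {v : V} (hv : v ∈ wsp σ A l) :
    pro σ A l v = v := by
  classical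
  have : Fintype A := Fintype.ofFinite A
  rw [pro_eq, LinearMap.smul_apply, LinearMap.sum_apply]
  have h1 : ∀ a : A, ((((l a)⁻¹ : ℂˣ) : ℂ) • σ a) v = v := by
    intro a
    rw [LinearMap.smul_apply, hv a, smul_smul, ← Units.val_mul, inv_mul_cancel, Units.val_one,
      one_smul]
  rw [Finset.sum_congr rfl (fun a _ => h1 a), Finset.sum_const, Finset.card_univ,
    ← Nat.card_eq_fintype_card, ← Nat.cast_smul_eq_nsmul ℂ, smul_smul,
    inv_mul_cancel₀ (cardA_ne A), one_smul]

lemma sum_char_wsp (A : Subgroup U) [Fintype A] (l : A →* ℂˣ) :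
    ∑ a : A, (((l a)⁻¹ : ℂˣ) : ℂ) * σ.character a
      = (Module.finrank ℂ (wsp σ A l) : ℂ) * Nat.card A := by
  have h1 : LinearMap.IsProj (wsp σ A l) (pro σ A l) :=
    ⟨fun v => pro_mem σ A l v, fun v hv => pro_of_mem σ A l hv⟩
  have h2 := h1.trace
  rw [pro_eq, map_smul, map_sum, smul_eq_mul] at h2
  have h3 : ∑ a : A, (((l a)⁻¹ : ℂˣ) : ℂ) * σ.character a
      = ∑ a : A, LinearMap.trace ℂ V ((((l a)⁻¹ : ℂˣ) : ℂ) • σ a) := by
    refine Finset.sum_congr rfl fun a _ => ?_
    rw [map_smul, smul_eq_mul]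
    rfl
  rw [h3, ← h2, mul_comm, ← mul_assoc, mul_inv_cancel₀ (cardA_ne A), one_mul]

/-- the dimension is even -/
lemma even_wsp (b : V →ₗ[ℂ] V →ₗ[ℂ] ℂ) (hsym : ∀ v w, b v w = b w v)
    (hinv : ∀ g v w, b (σ g v) (σ g w) = b v w) (hnd : ∀ v, (∀ w, b v w = 0) → v = 0)
    (A : Subgroup U) (l : A →* ℂˣ) (w : U)
    (hw : ∀ a (ha : a ∈ A), ∃ hb : w * a * w⁻¹ ∈ A, l ⟨w * a * w⁻¹, hb⟩ = (l ⟨a, ha⟩)⁻¹)
    (hw2 : ∃ h : w * w ∈ A, ((l ⟨w * w, h⟩ : ℂˣ) : ℂ) = -1) :
    Even (Module.finrank ℂ (wsp σ A l)) := by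
  classical
  have : Fintype A := Fintype.ofFinite A
  obtain ⟨hww, hlw⟩ := hw2
  -- `w` maps the space to that of the inverse character and conversely
  have hmove : ∀ v, (∀ a : A, σ a v = (((l a)⁻¹ : ℂˣ) : ℂ) • v) → σ w⁻¹ v ∈ wsp σ A l := by
    intro v hv a
    obtain ⟨hb, hb'⟩ := hw a a.2
    have h1 := hv ⟨w * a * w⁻¹, hb⟩
    rw [hb', inv_inv] at h1
    have h2 : σ (a : U) (σ w⁻¹ v) = σ w⁻¹ (σ (w * a * w⁻¹) v) := by
      rw [← Module.End.mul_apply, ← Module.End.mul_apply, ← map_mul, ← map_mul]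
      congr 2
      group
    rw [h2, h1, map_smul]
  let β : wsp σ A l →ₗ[ℂ] wsp σ A l →ₗ[ℂ] ℂ :=
    LinearMap.mk₂ ℂ (fun v v' => b v (σ w v'))
      (fun v₁ v₂ v' => by simp) (fun c v v' => by simp)
      (fun v v₁ v₂ => by simp) (fun c v v' => by simp)
  have hβ : ∀ v v' : wsp σ A l, β v v' = b v (σ w v') := fun v v' => rfl
  refine even_of_skew β (fun v v' => ?_) (fun v hv => ?_)
  · rw [hβ, hβ, hsym, ← hinv w (σ w v) v']
    have h1 : σ w (σ w (v : V)) = -(v : V) := by
      rw [← Module.End.mul_apply, ← map_mul]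
      have := v.2 ⟨w * w, hww⟩
      rw [hlw, neg_one_smul] at this
      exact this
    rw [h1, map_neg, LinearMap.neg_apply]
  · apply Subtype.ext
    change (v : V) = 0
    apply hnd
    intro x
    -- project `x` to the space of the inverse character
    let u : V := (Nat.card A : ℂ)⁻¹ • ∑ a : A, ((l a : ℂˣ) : ℂ) • σ a x
    have hu : ∀ c : A, σ c u = (((l c)⁻¹ : ℂˣ) : ℂ) • u := by
      intro c
      change σ c ((Nat.card A : ℂ)⁻¹ • ∑ a : A, ((l a : ℂˣ) : ℂ) • σ a x) = _
      rw [map_smul, map_sum, smul_comm]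
      congr 1
      rw [Finset.smul_sum, ← Equiv.sum_comp (Equiv.mulLeft c)
        (fun a : A => (((l c)⁻¹ : ℂˣ) : ℂ) • ((l a : ℂˣ) : ℂ) • σ a x)]
      refine Finset.sum_congr rfl fun a _ => ?_
      rw [map_smul, Equiv.coe_mulLeft, smul_smul, Subgroup.coe_mul, map_mul σ,
        Module.End.mul_apply, map_mul l, Units.val_mul, ← mul_assoc, ← Units.val_mul,
        inv_mul_cancel, Units.val_one, one_mul]
    have h1 : b v u = b v x := by
      change b v ((Nat.card A : ℂ)⁻¹ • ∑ a : A, ((l a : ℂˣ) : ℂ) • σ a x) = _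
      rw [map_smul, map_sum, smul_eq_mul]
      have h2 : ∀ a : A, b v (((l a : ℂˣ) : ℂ) • σ a x) = b v x := by
        intro a
        rw [map_smul, smul_eq_mul]
        have h3 := v.2 a
        have h4 : b (σ a (v : V)) (σ a x) = b v x := hinv a v x
        rw [h3, map_smul, LinearMap.smul_apply, smul_eq_mul] at h4
        exact h4
      rw [Finset.sum_congr rfl (fun a _ => h2 a), Finset.sum_const, Finset.card_univ,
        ← Nat.card_eq_fintype_card, nsmul_eq_mul, ← mul_assoc, inv_mul_cancel₀ (cardA_ne A),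
        one_mul]
    rw [← h1]
    have h5 := hv ⟨σ w⁻¹ u, hmove u hu⟩
    rw [hβ] at h5
    rw [← h5]
    congr 1
    change u = σ w (σ w⁻¹ u)
    rw [← Module.End.mul_apply, ← map_mul, mul_inv_cancel, map_one, Module.End.one_apply]

/-- evenness on groups with the structure -/
lemma even_pair (b : V →ₗ[ℂ] V →ₗ[ℂ] ℂ) (hsym : ∀ v w, b v w = b w v)
    (hinv : ∀ g v w, b (σ g v) (σ g w) = b v w) (hnd : ∀ v, (∀ w, b v w = 0) → v = 0)
    (hreal : ∀ u, σ.character u⁻¹ = σ.character u) [Fintype U] {θ : U → ℂ}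
    (h : SStr θ ∨ DStr θ) :
    ∃ k : ℕ, ∑ u : U, θ u * σ.character u = 2 * k * Nat.card U := by
  classical
  rcases h with ⟨l, hl⟩ | ⟨A, l, w, hwA, hi, hA, hoff, hw, hw2⟩
  · let T : Subgroup U := ⊤
    have : Fintype T := Fintype.ofFinite T
    let l' : T →* ℂˣ := l.comp T.subtype
    refine ⟨Module.finrank ℂ (wsp σ T l'), ?_⟩
    have h1 := sum_char_wsp σ T l'
    have h2 : ∑ a : T, (((l' a)⁻¹ : ℂˣ) : ℂ) * σ.character a
        = ∑ u : U, (((l u)⁻¹ : ℂˣ) : ℂ) * σ.character u :=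
      Fintype.sum_equiv Subgroup.topEquiv.toEquiv _ _ fun _ => rfl
    have h3 : (Nat.card T : ℂ) = Nat.card U := by
      rw [Nat.card_congr Subgroup.topEquiv.toEquiv]
    rw [h2, h3] at h1
    have h4 : ∑ u : U, ((l u : ℂˣ) : ℂ) * σ.character u
        = ∑ u : U, (((l u)⁻¹ : ℂˣ) : ℂ) * σ.character u := by
      rw [← Equiv.sum_comp (Equiv.inv U)]
      refine Finset.sum_congr rfl fun u _ => ?_
      rw [Equiv.inv_apply, hreal, map_inv]
    calc ∑ u : U, θ u * σ.character u
        = ∑ u : U, ((l u : ℂˣ) : ℂ) * σ.character u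
          + ∑ u : U, (((l u)⁻¹ : ℂˣ) : ℂ) * σ.character u := by
          rw [← Finset.sum_add_distrib]
          refine Finset.sum_congr rfl fun u _ => ?_
          rw [hl, add_mul]
      _ = _ := by rw [h4, h1]; ring
  · have : Fintype A := Fintype.ofFinite A
    obtain ⟨k, hk⟩ := even_wsp σ b hsym hinv hnd A l w hw hw2
    have h1 := sum_char_wsp σ A l
    rw [hk] at h1
    have h4 : ∑ a : A, ((l a : ℂˣ) : ℂ) * σ.character a
        = ∑ a : A, (((l a)⁻¹ : ℂˣ) : ℂ) * σ.character a := by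
      rw [← Equiv.sum_comp (Equiv.inv A)]
      refine Finset.sum_congr rfl fun a _ => ?_
      rw [Equiv.inv_apply, Subgroup.coe_inv, hreal, map_inv]
    have h5 : ∑ u : U, θ u * σ.character u = ∑ a : A, θ a * σ.character a := by
      rw [← Finset.sum_subset (Finset.subset_univ (Finset.univ.filter (· ∈ A)))]
      · exact (Finset.sum_subtype _ (by simp) (fun u => θ u * σ.character u))
      · intro u _ hu
        have hu' : u ∉ A := by simpa using hu
        rw [hoff u hu', zero_mul]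
    have h6 : Nat.card U = 2 * Nat.card A := by
      have h7 : Nat.card {u : U // u ∉ A} = Nat.card A := by
        refine Nat.card_congr
          { toFun := fun u => ⟨w * u.1, hi _ u.2⟩
            invFun := fun a => ⟨w⁻¹ * a.1, fun h => hwA ?_⟩
            left_inv := fun u => Subtype.ext (inv_mul_cancel_left _ _)
            right_inv := fun a => Subtype.ext (mul_inv_cancel_left _ _) }
        have h8 := A.mul_mem a.2 (A.inv_mem h)
        rwa [mul_inv_rev, inv_inv, mul_inv_cancel_left] at h8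
      have h8 : Nat.card U = Nat.card {u : U // u ∈ A} + Nat.card {u : U // u ∉ A} := by
        rw [← Nat.card_sum]
        exact Nat.card_congr (Equiv.sumCompl (· ∈ A)).symm
      rw [h8, h7]
      change Nat.card A + Nat.card A = _
      ring
    refine ⟨k, ?_⟩
    rw [h5, h6]
    calc ∑ a : A, θ a * σ.character a
        = ∑ a : A, ((l a : ℂˣ) : ℂ) * σ.character a
          + ∑ a : A, (((l a)⁻¹ : ℂˣ) : ℂ) * σ.character a := by
          rw [← Finset.sum_add_distrib]
          refine Finset.sum_congr rfl fun a _ => ?_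
          rw [hA, add_mul]
      _ = _ := by rw [h4, h1]; push_cast; ring

end

end Pool.Agent.Q7.TZ
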