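import Mathlib
import Pool.Agent.Q7.TZ.Orth
import Pool.Agent.W446.AS.Virt

/-!
# The multiplicities of orthogonal characters are even
-/

set_option autoImplicit false
set_option linter.unusedSectionVars false

namespace Pool.Agent.Q7.TZ

open Pool.Agent.H302R2 Pool.Agent.H541R3.ART MulAction

/-- `χ` is the character of an orthogonal representation -/
def OrthRep {G : Type} [Group G] (χ : G → ℂ) : Prop :=
  ∃ (V : Type) (_ : AddCommGroup V) (_ : Module ℂ V) (_ : FiniteDimensional ℂ V)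
    (σ : Representation ℂ G V) (b : V →ₗ[ℂ] V →ₗ[ℂ] ℂ), σ.character = χ ∧
    (∀ v w, b v w = b w v) ∧ (∀ g v w, b (σ g v) (σ g w) = b v w) ∧
    (∀ v, (∀ w, b v w = 0) → v = 0) ∧ ∀ g, χ g⁻¹ = χ g

section

variable {G : Type} [Group G] [Finite G]

lemma isIntegral_msum {E : Type} [Group E] [Finite E] (e : E) (s : Multiset (E →* ℂˣ)) :
    IsIntegral ℤ (s.map (fun ψ => ((ψ e : ℂˣ) : ℂ))).sum := by
  induction s using Multiset.induction_on with
  | empty => simpa using isIntegral_zero
  | cons a s ih =>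
    rw [Multiset.map_cons, Multiset.sum_cons]
    exact IsIntegral.add (isIntegral_char a _) ih

lemma isIntegral_heil {φ : G → ℂ} (hφ : IsHeilbronn φ) (g : G) : IsIntegral ℤ (φ g) := by
  obtain ⟨s, hs⟩ := (hφ.comp (Subgroup.zpowers g).subtype).comm_multiset (zpowers_comm g)
  have h := hs ⟨g, Subgroup.mem_zpowers g⟩
  change φ g = _ at h
  rw [h]
  exact isIntegral_msum _ s

/-- sums against permutation characters with hyperelementary stabilizers -/
lemma sum_count' {Φ : G → ℂ} (hc : ∀ g h : G, Φ (h * g * h⁻¹) = Φ g)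
    (hU : ∀ U : Subgroup G, Hyp U → ∃ k : ℕ, ∑ᶠ u : U, Φ u = 2 * k * Nat.card U)
    {f : G → ℕ} (hf : HypCount f) : ∃ k : ℕ, ∑ᶠ g : G, Φ g * (f g : ℂ) = 2 * k * Nat.card G := by
  classical
  obtain ⟨X, _, _, hX, hfX⟩ := hf
  have : Fintype G := Fintype.ofFinite _
  have : Fintype X := Fintype.ofFinite _
  let F : X → ℂ := fun x => ∑ g : G, if g • x = x then Φ g else 0
  have hstab : ∀ x : X, ∃ k : ℕ, F x = 2 * k * Nat.card (stabilizer G x) := by
    intro x
    obtain ⟨k, hk⟩ := hU (stabilizer G x) (hX x)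
    refine ⟨k, ?_⟩
    rw [← hk, finsum_eq_sum_of_fintype]
    change (∑ g : G, if g • x = x then Φ g else 0) = _
    rw [← Finset.sum_filter]
    exact Finset.sum_subtype _ (by simp) Φ
  choose k hk using hstab
  have hinv : ∀ (h : G) (x : X), F (h • x) = F x := by
    intro h x
    change ∑ g : G, (if g • h • x = h • x then Φ g else 0) = ∑ g : G, if g • x = x then Φ g else 0
    rw [← Equiv.sum_comp (MulAut.conj h).toEquiv
      (fun g => if g • h • x = h • x then Φ g else 0)]
    refine Finset.sum_congr rfl fun g _ => ?_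
    have e1 : (MulAut.conj h).toEquiv g = h * g * h⁻¹ := rfl
    rw [e1, hc]
    have e2 : ((h * g * h⁻¹) • h • x = h • x) ↔ (g • x = x) := by
      rw [smul_smul, inv_mul_cancel_right, mul_smul]
      exact smul_left_cancel_iff h
    by_cases hgx : g • x = x
    · rw [if_pos hgx, if_pos (e2.mpr hgx)]
    · rw [if_neg hgx, if_neg (fun h => hgx (e2.mp h))]
  have hsum : ∑ᶠ g : G, Φ g * (f g : ℂ) = ∑ x : X, F x := by
    rw [finsum_eq_sum_of_fintype, Finset.sum_comm]
    refine Finset.sum_congr rfl fun g _ => ?_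
    rw [hfX, ← Finset.sum_filter, Finset.sum_const, nsmul_eq_mul, mul_comm,
      Nat.card_eq_fintype_card, Fintype.card_subtype]
  let mk : X → Quotient (orbitRel G X) := Quotient.mk _
  refine ⟨∑ ω : Quotient (orbitRel G X), k ω.out, ?_⟩
  rw [hsum, ← Finset.sum_fiberwise_of_maps_to (s := Finset.univ) (t := Finset.univ)
    (g := mk) (fun _ _ => Finset.mem_univ _)]
  push_cast
  rw [Finset.mul_sum, Finset.sum_mul]
  refine Finset.sum_congr rfl fun ω _ => ?_
  have hconst : ∀ x ∈ Finset.univ.filter (fun x => mk x = ω), F x = F ω.out := by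
    intro x hx
    have h2 := (Finset.mem_filter.mp hx).2
    have h3 : mk x = mk ω.out := by
      rw [h2]; exact (Quotient.out_eq ω).symm
    have h4 := Quotient.exact h3
    obtain ⟨h, hh⟩ := orbitRel_apply.mp h4
    rw [← hh, hinv]
  rw [Finset.sum_congr rfl hconst, Finset.sum_const, nsmul_eq_mul, hk]
  have hcard : (Finset.univ.filter (fun x => mk x = ω)).card
      * Nat.card (stabilizer G ω.out) = Nat.card G := by
    have : Fintype (orbit G ω.out) := Fintype.ofFinite _
    have : Fintype (stabilizer G ω.out) := Fintype.ofFinite _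
    have h5 := card_orbit_mul_card_stabilizer_eq_card_group G ω.out
    rw [Nat.card_eq_fintype_card, Nat.card_eq_fintype_card, ← h5]
    congr 1
    rw [← Fintype.card_subtype]
    refine Fintype.card_congr (Equiv.subtypeEquivRight fun x => ?_)
    constructor
    · intro h2
      have h3 : mk x = mk ω.out := by
        rw [h2]; exact (Quotient.out_eq ω).symm
      exact orbitRel_apply.mp (Quotient.exact h3)
    · intro h2
      have h3 : mk x = mk ω.out := Quotient.sound (orbitRel_apply.mpr h2)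
      rw [h3]; exact Quotient.out_eq ω
  rw [← hcard]
  push_cast
  ring

/-- If the sums of an integral class function over the hyperelementary subgroups are even multiples
of their orders, so is the sum over the group. -/
theorem even_of_hyper {Φ : G → ℂ} (hc : ∀ g h : G, Φ (h * g * h⁻¹) = Φ g)
    (hint : ∀ g, IsIntegral ℤ (Φ g))
    (hU : ∀ U : Subgroup G, Hyp U → ∃ k : ℕ, ∑ᶠ u : U, Φ u = 2 * k * Nat.card U) {n : ℤ}
    (hn : ∑ᶠ g : G, Φ g = n * Nat.card G) : Even n := by
  classical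
  have : Fintype G := Fintype.ofFinite _
  obtain ⟨F, hF, hodd⟩ := exists_all_odd (G := G)
  set N := Nat.card G with hN
  have hpow : HypCount (fun g => F g ^ (2 ^ N)) := by
    have := hF.pow (2 ^ N - 1)
    rwa [Nat.sub_add_cancel Nat.one_le_two_pow] at this
  obtain ⟨k, hk⟩ := sum_count' hc hU hpow
  choose e he using fun g => odd_pow_two_pow (F g) (hodd g) N
  set T : ℂ := ∑ g : G, Φ g * (e g : ℂ) with hT
  have hTint : IsIntegral ℤ T := by
    apply IsIntegral.sum
    intro g _
    apply IsIntegral.mul (hint g)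
    have : ((e g : ℕ) : ℂ) = algebraMap ℤ ℂ (e g : ℤ) := by simp
    rw [this]
    exact isIntegral_algebraMap
  have hrel : (2 * k * N : ℂ) = n * N + 2 ^ (N + 1) * T := by
    rw [← hk, ← hn, finsum_eq_sum_of_fintype, finsum_eq_sum_of_fintype, hT, Finset.mul_sum,
      ← Finset.sum_add_distrib]
    refine Finset.sum_congr rfl fun g _ => ?_
    rw [he]
    push_cast
    ring
  have hT2 : T = (((((2 * k : ℤ) - n) * N : ℤ) / (2 : ℚ) ^ (N + 1) : ℚ) : ℂ) := by
    have h2 : (2 : ℂ) ^ (N + 1) ≠ 0 := pow_ne_zero _ two_ne_zero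
    push_cast
    rw [eq_div_iff h2]
    linear_combination -hrel
  rw [hT2] at hTint
  have h3 : IsIntegral ℤ ((((2 * k : ℤ) - n) * N : ℤ) / (2 : ℚ) ^ (N + 1) : ℚ) := by
    have h4 : ((((((2 * k : ℤ) - n) * N : ℤ) / (2 : ℚ) ^ (N + 1) : ℚ)) : ℂ)
        = algebraMap ℚ ℂ ((((2 * k : ℤ) - n) * N : ℤ) / (2 : ℚ) ^ (N + 1) : ℚ) := rfl
    rw [h4] at hTint
    exact (isIntegral_algebraMap_iff (algebraMap ℚ ℂ).injective).mp hTint
  obtain ⟨t, ht⟩ := IsIntegrallyClosed.isIntegral_iff.mp h3
  have h5 : ((2 * k : ℤ) - n) * N = 2 ^ (N + 1) * t := by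
    have h6 : (2 : ℚ) ^ (N + 1) ≠ 0 := by positivity
    rw [eq_div_iff h6] at ht
    have h7 : ((((2 * k : ℤ) - n) * N : ℤ) : ℚ) = ((2 ^ (N + 1) * t : ℤ) : ℚ) := by
      rw [← ht]; push_cast; simp only [eq_intCast]; ring
    exact_mod_cast h7
  by_contra hne
  have hnodd : Odd n := Int.not_even_iff_odd.mp hne
  have h8 : IsCoprime ((2 : ℤ) ^ (N + 1)) ((2 * k : ℤ) - n) := by
    apply IsCoprime.pow_left
    rw [Int.isCoprime_iff_gcd_eq_one]
    have h9 : Odd ((2 * k : ℤ) - n) := by
      apply Even.sub_odd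
      · exact even_two_mul _
      · exact hnodd
    rw [Int.gcd_eq_natAbs]
    have h10 : Odd ((2 * k : ℤ) - n).natAbs := Int.natAbs_odd.mpr h9
    exact Nat.coprime_two_left.mpr h10
  have h9 : (2 : ℤ) ^ (N + 1) ∣ (N : ℤ) := by
    apply h8.dvd_of_dvd_mul_left
    exact ⟨t, h5⟩
  have h10 : 2 ^ (N + 1) ∣ N := by exact_mod_cast h9
  have h11 := Nat.le_of_dvd Nat.card_pos h10
  have h12 : N < 2 ^ N := Nat.lt_two_pow_self
  have h13 : 2 ^ N ≤ 2 ^ (N + 1) := Nat.pow_le_pow_right (by norm_num) (Nat.le_succ N)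
  omega

/-- The multiplicities of orthogonal characters are even. -/
theorem parity_orth {θ : G → ℂ} (hθ : IsHeilbronn θ) (h1 : θ 1 = 2) (hd : ∀ g, dd θ g = 1)
    {χ : G → ℂ} (hχ : χ ∈ Irr G) (ho : OrthRep χ) {n : ℤ}
    (hn : ∑ᶠ g : G, θ g * χ g = n * Nat.card G) : Even n := by
  classical
  refine even_of_hyper (Φ := fun g => θ g * χ g) (fun g h => ?_) (fun g => ?_) (fun U hU => ?_) hn
  · rw [hθ.conj, Irr.conj hχ]
  · exact (hθ.isIntegral_two h1 g).mul
      (isIntegral_heil (Pool.Agent.W446.AS.irr_heilbronn hχ) g)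
  · obtain ⟨V, _, _, _, σ, b, rfl, hsym, hinv, hnd, hreal⟩ := ho
    have : Fintype U := Fintype.ofFinite U
    have hs := hyp_str _ U rfl hU (fun u => θ u) (hθ.comp U.subtype) h1 (fun u => hd u)
    obtain ⟨k, hk⟩ := even_pair (σ.comp U.subtype) b hsym (fun g v w => hinv g v w) hnd
      (fun u => hreal u) hs
    refine ⟨k, ?_⟩
    rw [finsum_eq_sum_of_fintype, ← hk]
    rfl

end

end Pool.Agent.Q7.TZ
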