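import Mathlib
import Pool.Agent.W90.Swan.FS
import Pool.Agent.Q7.TZ.Par

/-!
# The Frobenius-Schur indicator
-/

set_option autoImplicit false
set_option linter.unusedSectionVars false

open scoped TensorProduct
open Representation

namespace Pool.Agent.Q7.TZ

open Pool.Agent.H302R2 Pool.Agent.H541R3.ART Pool.Agent.W90.Swan

section

variable {G : Type} [Group G] [Fintype G] {V : Type} [AddCommGroup V] [Module ℂ V]
  [FiniteDimensional ℂ V] (ρ : Representation ℂ G V)

/-- Frobenius and Schur -/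
theorem fs_full [IsIrreducible ρ] :
    (∑ g : G, ρ.character (g ^ 2) = 0 ∧ ∑ g : G, ρ.character g * ρ.character g = 0) ∨
    (∑ g : G, ρ.character g * ρ.character g = Nat.card G ∧
      ((∑ g : G, ρ.character (g ^ 2) = -(Nat.card G : ℂ)) ∨
       (∑ g : G, ρ.character (g ^ 2) = Nat.card G ∧
        ∃ t : V ⊗[ℂ] V, t ≠ 0 ∧ (∀ g, TensorProduct.map (ρ g) (ρ g) t = t) ∧ swp V t = t))) := by
  have hn : (Nat.card G : ℂ) ≠ 0 := cardG_ne
  have hsum1 : ∀ ν : ℂ, LinearMap.trace ℂ _ (avg2 ρ) = ν →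
      ∑ g : G, ρ.character g * ρ.character g = (Nat.card G : ℂ) * ν := by
    intro ν h
    rw [trace_avg2] at h
    rw [← h, ← mul_assoc, mul_inv_cancel₀ hn, one_mul]
  have hsum : ∀ ν : ℂ, LinearMap.trace ℂ _ (avg2 ρ ∘ₗ swp V) = (ν : ℂ) →
      ∑ g : G, ρ.character (g ^ 2) = (Nat.card G : ℂ) * ν := by
    intro ν h
    rw [trace_avg2_swp] at h
    rw [← h, ← mul_assoc, mul_inv_cancel₀ hn, one_mul]
  rcases Nat.le_one_iff_eq_zero_or_eq_one.mp (finrank_range_avg2_le ρ) with h0 | h1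
  · left
    have hr : LinearMap.range (avg2 ρ) = ⊥ := Submodule.finrank_eq_zero.mp h0
    have hz : avg2 ρ = 0 := LinearMap.range_eq_bot.mp hr
    refine ⟨?_, ?_⟩
    · rw [hsum 0 (by rw [hz]; simp), mul_zero]
    · rw [hsum1 0 (by rw [hz]; simp), mul_zero]
  · right
    obtain ⟨⟨t0, ht0⟩, hne, hspan⟩ := finrank_eq_one_iff'.mp h1
    have ht0' : t0 ≠ 0 := fun h => hne (Subtype.ext h)
    have hspan' : ∀ u, ∃ c : ℂ, c • t0 = avg2 ρ u := by
      intro u
      obtain ⟨c, hc⟩ := hspan ⟨avg2 ρ u, LinearMap.mem_range_self _ _⟩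
      exact ⟨c, congrArg Subtype.val hc⟩
    have ht0a : avg2 ρ t0 = t0 := by
      obtain ⟨y, rfl⟩ := ht0
      exact avg2_avg2 ρ y
    obtain ⟨ε, hε⟩ := hspan' (swp V t0)
    have hs : swp V t0 = ε • t0 := by
      rw [hε, avg2_swp, ht0a]
    have hε2 : ε * ε = 1 := by
      have h2 : swp V (swp V t0) = t0 := swp_swp_apply t0
      rw [hs, map_smul, hs, smul_smul] at h2
      have h3 : (ε * ε - 1) • t0 = 0 := by rw [sub_smul, h2, one_smul, sub_self]
      exact sub_eq_zero.mp ((smul_eq_zero.mp h3).resolve_right ht0')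
    have hcomp : avg2 ρ ∘ₗ swp V = ε • avg2 ρ := by
      apply LinearMap.ext
      intro u
      obtain ⟨c, hc⟩ := hspan' u
      simp only [LinearMap.comp_apply, LinearMap.smul_apply]
      rw [avg2_swp, ← hc, map_smul, hs, smul_comm]
    have htr1 : LinearMap.trace ℂ _ (avg2 ρ) = 1 := by
      rw [trace_avg2_eq, h1]
      simp
    have htr : LinearMap.trace ℂ _ (avg2 ρ ∘ₗ swp V) = ε := by
      rw [hcomp, map_smul, htr1]
      simp
    refine ⟨by rw [hsum1 1 htr1, mul_one], ?_⟩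
    rcases mul_self_eq_one_iff.mp hε2 with h | h
    · right
      refine ⟨by rw [hsum 1 (by rw [htr, h]), mul_one], t0, ht0', fun g => ?_, ?_⟩
      · rw [← ht0a]
        exact tmap_avg2 ρ g t0
      · rw [hs, h, one_smul]
    · left
      rw [hsum (-1) (by rw [htr, h]), mul_neg, mul_one]

end

end Pool.Agent.Q7.TZ
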