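import Mathlib
import Pool.Agent.Q7.TZ.FSI
import Pool.Agent.Q7.DB.RealArt

/-!
# Symmetric invariant tensors give orthogonal representations
-/

set_option autoImplicit false
set_option linter.unusedSectionVars false

open scoped TensorProduct
open Representation

namespace Pool.Agent.Q7.TZ

open Pool.Agent.H302R2 Pool.Agent.H541R3.ART Pool.Agent.W90.Swan

section

variable {G : Type} [Group G] {V : Type} [AddCommGroup V] [Module ℂ V]
  [FiniteDimensional ℂ V] (ρ : Representation ℂ G V)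

/-- the form on the dual given by a tensor -/
noncomputable def tform (t : V ⊗[ℂ] V) : Module.Dual ℂ V →ₗ[ℂ] Module.Dual ℂ V →ₗ[ℂ] ℂ :=
  LinearMap.mk₂ ℂ (fun ξ η => TensorProduct.dualDistrib ℂ V V (ξ ⊗ₜ η) t)
    (fun a b c => by rw [TensorProduct.add_tmul, map_add, LinearMap.add_apply])
    (fun a b c => by rw [← TensorProduct.smul_tmul', map_smul, LinearMap.smul_apply])
    (fun a b c => by rw [TensorProduct.tmul_add, map_add, LinearMap.add_apply])
    (fun a b c => by rw [TensorProduct.tmul_smul, map_smul, LinearMap.smul_apply])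

lemma tform_apply (t : V ⊗[ℂ] V) (ξ η : Module.Dual ℂ V) :
    tform t ξ η = TensorProduct.dualDistrib ℂ V V (ξ ⊗ₜ η) t := rfl

lemma tform_map (t : V ⊗[ℂ] V) (ξ η : Module.Dual ℂ V) (f : V →ₗ[ℂ] V) :
    tform t (ξ ∘ₗ f) (η ∘ₗ f) = tform (TensorProduct.map f f t) ξ η := by
  induction t using TensorProduct.induction_on with
  | zero => simp [tform_apply]
  | tmul a b => simp [tform_apply]
  | add a b ha hb =>
    rw [tform_apply] at ha hb
    rw [tform_apply, map_add, ha, hb, tform_apply, tform_apply, tform_apply, map_add, map_add]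

lemma tform_swp (t : V ⊗[ℂ] V) (ξ η : Module.Dual ℂ V) :
    tform (swp V t) ξ η = tform t η ξ := by
  induction t using TensorProduct.induction_on with
  | zero => simp [tform_apply]
  | tmul a b => simp [tform_apply, mul_comm]
  | add a b ha hb =>
    rw [tform_apply, tform_apply] at ha hb
    rw [tform_apply, tform_apply, map_add, map_add, map_add, ha, hb]

lemma eq_zero_of_tform (t : V ⊗[ℂ] V) (h : ∀ ξ η, tform t ξ η = 0) : t = 0 := by
  let b := Module.finBasis ℂ V
  apply (b.tensorProduct b).ext_elem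
  rintro ⟨i, j⟩
  rw [map_zero, Finsupp.zero_apply]
  have h1 : ∀ s : V ⊗[ℂ] V, (b.tensorProduct b).repr s (i, j) = tform s (b.coord i) (b.coord j) := by
    intro s
    induction s using TensorProduct.induction_on with
    | zero => simp [tform_apply]
    | tmul x y => simp [tform_apply, mul_comm]
    | add x y hx hy =>
      rw [map_add, Finsupp.add_apply, hx, hy, tform_apply, tform_apply, tform_apply, map_add]
  rw [h1, h]

/-- symmetric invariant tensors give orthogonal representations -/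
theorem orth_of_tensor (hρ : ρ.IsIrreducible) {t : V ⊗[ℂ] V} (ht : t ≠ 0)
    (hinv : ∀ g, TensorProduct.map (ρ g) (ρ g) t = t) (hs : swp V t = t)
    (hreal : ∀ g, ρ.character g⁻¹ = ρ.character g) : OrthRep ρ.character := by
  have hI := (Pool.Agent.W446.AS.irred_iff ρ).mpr hρ
  have hb : ∀ (g : G) ξ η, tform t (ρ.dual g ξ) (ρ.dual g η) = tform t ξ η := by
    intro g ξ η
    have h1 : ∀ ξ : Module.Dual ℂ V, ρ.dual g ξ = ξ ∘ₗ ρ g⁻¹ := fun ξ => rfl
    rw [h1, h1, tform_map, hinv]
  have hsym : ∀ ξ η, tform t ξ η = tform t η ξ := by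
    intro ξ η
    conv_lhs => rw [← hs]
    rw [tform_swp]
  refine ⟨Module.Dual ℂ V, inferInstance, inferInstance, inferInstance, ρ.dual, tform t, ?_, hsym,
    hb, ?_, hreal⟩
  · funext g
    rw [char_dual, hreal]
  · let R : Submodule ℂ (Module.Dual ℂ V) := LinearMap.ker (tform t)
    have hR : ∀ ξ, ξ ∈ R ↔ ∀ η, tform t ξ η = 0 := by
      intro ξ
      rw [LinearMap.mem_ker]
      exact ⟨fun h η => by rw [h]; rfl, fun h => LinearMap.ext h⟩
    have hRinv : ∀ g ξ, ξ ∈ R → ρ.dual g ξ ∈ R := by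
      intro g ξ hξ
      rw [hR] at hξ ⊢
      intro η
      have h2 := hb g ξ (ρ.dual g⁻¹ η)
      have h3 : ρ.dual g (ρ.dual g⁻¹ η) = η := by
        rw [← Module.End.mul_apply, ← map_mul, mul_inv_cancel, map_one, Module.End.one_apply]
      rw [h3, hξ] at h2
      exact h2
    have hW : R.dualCoannihilator = ⊥ ∨ R.dualCoannihilator = ⊤ := by
      apply hI.2
      intro g v hv
      rw [Submodule.mem_dualCoannihilator] at hv ⊢
      intro ξ hξ
      have h4 := hv _ (hRinv g⁻¹ ξ hξ)
      have h5 : ρ.dual g⁻¹ ξ = ξ ∘ₗ ρ (g⁻¹)⁻¹ := rfl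
      rw [h5, inv_inv] at h4
      exact h4
    have h6 : R.dualCoannihilator.dualAnnihilator = R :=
      Subspace.dualCoannihilator_dualAnnihilator_eq
    rcases hW with h | h
    · exfalso
      rw [h, Submodule.dualAnnihilator_bot] at h6
      apply ht
      apply eq_zero_of_tform
      intro ξ η
      have h7 : ξ ∈ R := by rw [← h6]; exact Submodule.mem_top
      exact (hR ξ).mp h7 η
    · rw [h, Submodule.dualAnnihilator_top] at h6
      intro ξ hξ
      have h7 : ξ ∈ R := (hR ξ).mpr hξ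
      rw [← h6, Submodule.mem_bot] at h7
      exact h7

/-- The trichotomy for irreducible characters -/
theorem trichotomy {G : Type} [Group G] [Finite G] {χ : G → ℂ} (hχ : χ ∈ Irr G) :
    ((∀ g, χ g⁻¹ = χ g) ∧ ((OrthRep χ ∧ ∑ᶠ g, χ (g ^ 2) = Nat.card G) ∨
      ∑ᶠ g, χ (g ^ 2) = -(Nat.card G : ℂ))) ∨
    ((∃ g, χ g⁻¹ ≠ χ g) ∧ ∑ᶠ g, χ (g ^ 2) = 0) := by
  classical
  have : Fintype G := Fintype.ofFinite G
  have hG : (Nat.card G : ℂ) ≠ 0 := by exact_mod_cast Nat.card_pos.ne'
  rw [finsum_eq_sum_of_fintype]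
  have hp := pair_self hχ
  have hi := Pool.Agent.Q7.DB.irr_inv hχ
  by_cases hr : ∀ g, χ g⁻¹ = χ g
  · left
    refine ⟨hr, ?_⟩
    obtain ⟨n, ρ, hρ, rfl⟩ := hχ
    have hρ' := hρ
    rcases fs_full ρ with ⟨h1, h2⟩ | ⟨h1, h2⟩
    · exfalso
      simp only [hr] at hp
      rw [h2] at hp
      exact hG hp.symm
    · rcases h2 with h2 | ⟨h2, t, ht, hinv, hs⟩
      · right; exact h2
      · left; exact ⟨orth_of_tensor ρ hρ ht hinv hs hr, h2⟩
  · right
    push Not at hr
    refine ⟨hr, ?_⟩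
    have hne : χ ≠ (fun g => χ g⁻¹) := by
      intro h
      obtain ⟨g, hg⟩ := hr
      exact hg (congrFun h g).symm
    have h0 := pair_ne hχ hi hne
    simp only [inv_inv] at h0
    obtain ⟨n, ρ, hρ, rfl⟩ := hχ
    rcases fs_full ρ with ⟨h1, h2⟩ | ⟨h1, h2⟩
    · exact h1
    · rw [h0] at h1
      exact absurd h1.symm hG

end

end Pool.Agent.Q7.TZ
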