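import Mathlib
import Pool.Agent.Q7.TZ.OR

/-!
# Involutions act as scalars
-/

set_option autoImplicit false
set_option linter.unusedSectionVars false

open Representation

namespace Pool.Agent.Q7.TZ

open Pool.Agent.H302R2 Pool.Agent.H541R3.ART

section

variable {G : Type} [Group G] [Finite G]

lemma real_of_dd {θ : G → ℂ} (hθ : IsHeilbronn θ) (h1 : θ 1 = 2) (hd : ∀ g, dd θ g = 1) (g : G) :
    θ g⁻¹ = θ g := by
  obtain ⟨a, b, ha, hb, hp, hs, hpow⟩ := hθ.two_eig h1 g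
  have h2 := hpow (-1)
  rw [zpow_neg_one, zpow_neg_one, zpow_neg_one] at h2
  have ha0 : a ≠ 0 := by rw [← norm_ne_zero_iff, ha]; norm_num
  have hb0 : b ≠ 0 := by rw [← norm_ne_zero_iff, hb]; norm_num
  rw [hd] at hp
  rw [h2, hs]
  field_simp
  rw [← hp, one_mul, add_comm]

lemma nu_exists {χ : G → ℂ} (hχ : χ ∈ Irr G) : ∃ ν : ℤ, (∑ᶠ g, χ (g ^ 2) = ν * Nat.card G) ∧
    ((ν = 1 ∧ OrthRep χ ∧ ∀ g, χ g⁻¹ = χ g) ∨ (ν = -1 ∧ ∀ g, χ g⁻¹ = χ g) ∨
      (ν = 0 ∧ ∃ g, χ g⁻¹ ≠ χ g)) := by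
  rcases trichotomy hχ with ⟨hr, ⟨ho, h⟩ | h⟩ | ⟨hr, h⟩
  · exact ⟨1, by rw [h]; simp, Or.inl ⟨rfl, ho, hr⟩⟩
  · exact ⟨-1, by rw [h]; simp, Or.inr (Or.inl ⟨rfl, hr⟩)⟩
  · exact ⟨0, by rw [h]; simp, Or.inr (Or.inr ⟨rfl, hr⟩)⟩

lemma sum_conj_mul [Fintype G] {χ : G → ℂ} (hχ : χ ∈ Irr G) (t : G) :
    (∑ x : G, χ (t * (x * t * x⁻¹))) * χ 1 = Nat.card G * χ t ^ 2 := by
  obtain ⟨n, ρ, hρ, rfl⟩ := Pool.Agent.W446.AS.exists_rep hχ
  obtain ⟨c, hc⟩ := hρ.scalar (∑ x : G, ρ (x * t * x⁻¹)) (by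
    intro g v
    rw [LinearMap.sum_apply, LinearMap.sum_apply, map_sum,
      ← Equiv.sum_comp (Equiv.mulLeft g)]
    refine Finset.sum_congr rfl fun x _ => ?_
    rw [Equiv.coe_mulLeft, ← Module.End.mul_apply, ← Module.End.mul_apply, ← map_mul, ← map_mul]
    congr 2
    group)
  have hT : (∑ x : G, ρ (x * t * x⁻¹)) = c • (1 : Module.End ℂ (Fin n → ℂ)) := by
    ext1 v
    refine LinearMap.ext fun v => ?_
    simp only [LinearMap.comp_apply]
    rw [hc]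
    rfl
  have h1 : (Nat.card G : ℂ) * ρ.character t = c * ρ.character 1 := by
    have h2 := congrArg (LinearMap.trace ℂ (Fin n → ℂ)) hT
    rw [map_sum, map_smul] at h2
    have h3 : ∀ x ∈ (Finset.univ : Finset G),
        LinearMap.trace ℂ (Fin n → ℂ) (ρ (x * t * x⁻¹)) = ρ.character t := by
      intro x _
      exact ρ.char_conj t x
    rw [Finset.sum_congr rfl h3, Finset.sum_const, Finset.card_univ, nsmul_eq_mul,
      ← Nat.card_eq_fintype_card] at h2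
    rw [h2, smul_eq_mul]
    congr 1
    rw [← map_one ρ]
    rfl
  have h2 : ∑ x : G, ρ.character (t * (x * t * x⁻¹)) = c * ρ.character t := by
    have h3 := congrArg (fun f => LinearMap.trace ℂ (Fin n → ℂ) (ρ t * f)) hT
    simp only [Finset.mul_sum, mul_smul_comm, mul_one, map_sum, map_smul, smul_eq_mul] at h3
    refine Eq.trans ?_ h3
    refine Finset.sum_congr rfl fun x _ => ?_
    rw [← map_mul]
    rfl
  rw [h2]
  linear_combination (-ρ.character t) * h1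

/-- the fundamental identity -/
lemma sum_sq (n : (G → ℂ) → ℤ) (hθ : IsHeilbronn (theta n : G → ℂ)) (h1 : (theta n : G → ℂ) 1 = 2)
    (hd : ∀ g : G, dd (theta n) g = 1) (ν : (G → ℂ) → ℤ)
    (hν : ∀ χ ∈ Irr G, ∑ᶠ g : G, χ (g ^ 2) = ν χ * Nat.card G) :
    ∑ χ ∈ irrF G, (n χ ^ 2 - n χ * ν χ) = 2 := by
  classical
  have : Fintype G := Fintype.ofFinite G
  have hG : (Nat.card G : ℂ) ≠ 0 := by exact_mod_cast Nat.card_pos.ne'
  have e1 : ∑ g : G, theta n g * theta n g⁻¹ = (∑ χ ∈ irrF G, (n χ : ℂ) ^ 2) * Nat.card G := by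
    have h2 : ∀ g : G, theta n g * theta n g⁻¹ = ∑ χ ∈ irrF G, (n χ : ℂ) * (theta n g * χ g⁻¹) := by
      intro g
      conv_lhs => rw [theta.eq_1 (G := G) n g⁻¹]
      rw [Finset.mul_sum]
      refine Finset.sum_congr rfl fun χ _ => by ring
    rw [Finset.sum_congr rfl (fun g _ => h2 g), Finset.sum_comm, Finset.sum_mul]
    refine Finset.sum_congr rfl fun χ hχ => ?_
    rw [← Finset.mul_sum, theta_pair n (mem_irrF.mp hχ)]
    ring
  have e2 : ∑ g : G, theta n (g ^ 2) = (∑ χ ∈ irrF G, (n χ : ℂ) * ν χ) * Nat.card G := by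
    unfold theta
    rw [Finset.sum_comm, Finset.sum_mul]
    refine Finset.sum_congr rfl fun χ hχ => ?_
    have h3 := hν χ (mem_irrF.mp hχ)
    rw [finsum_eq_sum_of_fintype] at h3
    rw [← Finset.mul_sum, h3]
    ring
  have e3 : ∀ g : G, theta n g * theta n g⁻¹ = 2 + theta n (g ^ 2) := by
    intro g
    rw [real_of_dd hθ h1 hd, ← dd_rel hd g]
    ring
  rw [Finset.sum_congr rfl (fun g _ => e3 g), Finset.sum_add_distrib, e2, Finset.sum_const,
    Finset.card_univ, nsmul_eq_mul, ← Nat.card_eq_fintype_card] at e1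
  have e4 : (∑ χ ∈ irrF G, ((n χ : ℂ) ^ 2 - n χ * ν χ)) = 2 := by
    rw [Finset.sum_sub_distrib]
    have h5 : ((∑ χ ∈ irrF G, (n χ : ℂ) ^ 2) - (∑ χ ∈ irrF G, (n χ : ℂ) * ν χ) - 2) * Nat.card G
        = 0 := by linear_combination -e1
    have h6 := (mul_eq_zero.mp h5).resolve_right hG
    linear_combination h6
  exact_mod_cast e4

end

end Pool.Agent.Q7.TZ
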