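import Mathlib
import Pool.Agent.Q7.TZ.Sca

/-!
# The shape of degree two Heilbronn characters of determinant one
-/

set_option autoImplicit false
set_option linter.unusedSectionVars false

open Representation

namespace Pool.Agent.Q7.TZ

open Pool.Agent.H302R2 Pool.Agent.H541R3.ART

section

variable {G : Type} [Group G] [Finite G]

lemma n_conj (n : (G → ℂ) → ℤ) (hr : ∀ g : G, theta n g⁻¹ = theta n g) {χ : G → ℂ}
    (hχ : χ ∈ Irr G) : n (fun g => χ g⁻¹) = n χ := by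
  classical
  have : Fintype G := Fintype.ofFinite G
  have hG : (Nat.card G : ℂ) ≠ 0 := by exact_mod_cast Nat.card_pos.ne'
  have h1 := theta_pair n (Pool.Agent.Q7.DB.irr_inv hχ)
  have h2 := theta_pair n hχ
  simp only [inv_inv] at h1
  rw [← Equiv.sum_comp (Equiv.inv G)] at h1
  simp only [Equiv.inv_apply, hr] at h1
  rw [h2] at h1
  have h3 : (n χ : ℂ) = n (fun g => χ g⁻¹) := mul_right_cancel₀ hG h1
  exact_mod_cast h3.symm

theorem pattern (n : (G → ℂ) → ℤ) (hθ : IsHeilbronn (theta n : G → ℂ))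
    (h1 : (theta n : G → ℂ) 1 = 2) (hd : ∀ g : G, dd (theta n) g = 1) :
    ∃ χ₀ ∈ Irr G, 0 < n χ₀ ∧
      (∀ χ ∈ Irr G, χ ≠ χ₀ → χ ≠ (fun g => χ₀ g⁻¹) → n χ = 0 ∨
        (n χ = -1 ∧ (∀ g, χ g⁻¹ = χ g) ∧ ∑ᶠ g, χ (g ^ 2) = -(Nat.card G : ℂ))) ∧
      ((n χ₀ = 2 ∧ (∀ g, χ₀ g⁻¹ = χ₀ g) ∧ ∑ᶠ g, χ₀ (g ^ 2) = (Nat.card G : ℂ)) ∨
        (n χ₀ = 1 ∧ (∀ g, χ₀ g⁻¹ = χ₀ g) ∧ ∑ᶠ g, χ₀ (g ^ 2) = -(Nat.card G : ℂ)) ∨
        (n χ₀ = 1 ∧ n (fun g => χ₀ g⁻¹) = 1 ∧ ∃ g, χ₀ g⁻¹ ≠ χ₀ g)) := by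
  classical
  have hreal := real_of_dd hθ h1 hd
  have hν' : ∀ χ : G → ℂ, ∃ ν : ℤ, χ ∈ Irr G → (∑ᶠ g, χ (g ^ 2) = ν * Nat.card G) ∧
    ((ν = 1 ∧ OrthRep χ ∧ ∀ g, χ g⁻¹ = χ g) ∨ (ν = -1 ∧ ∀ g, χ g⁻¹ = χ g) ∨
      (ν = 0 ∧ ∃ g, χ g⁻¹ ≠ χ g)) := by
    intro χ
    by_cases h : χ ∈ Irr G
    · obtain ⟨ν, hν⟩ := nu_exists h
      exact ⟨ν, fun _ => hν⟩
    · exact ⟨0, fun h' => absurd h' h⟩
  choose ν hν using hν'
  have hsum := sum_sq n hθ h1 hd ν (fun χ hχ => (hν χ hχ).1)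
  set f : (G → ℂ) → ℤ := fun χ => n χ ^ 2 - n χ * ν χ with hf
  -- parity
  have hpar : ∀ χ ∈ Irr G, ν χ = 1 → Even (n χ) := by
    intro χ hχ h
    have hν2 := (hν χ hχ).2
    rcases hν2 with ⟨-, ho, hr⟩ | ⟨h', -⟩ | ⟨h', -⟩
    · apply parity_orth hθ h1 hd hχ ho
      have : Fintype G := Fintype.ofFinite G
      rw [finsum_eq_sum_of_fintype, ← theta_pair n hχ]
      refine Finset.sum_congr rfl fun g _ => by rw [hr]
    · omega
    · omega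
  have hnn : ∀ χ ∈ Irr G, 0 ≤ f χ := by
    intro χ hχ
    change 0 ≤ n χ ^ 2 - n χ * ν χ
    rcases (hν χ hχ).2 with ⟨h, -⟩ | ⟨h, -⟩ | ⟨h, -⟩ <;> rw [h]
    · rcases le_or_gt (n χ) 0 with h2 | h2 <;> nlinarith
    · rcases le_or_gt (n χ) (-1) with h2 | h2 <;> nlinarith
    · nlinarith
  -- existence of a positive coefficient
  have hpos : ∃ χ ∈ Irr G, 0 < n χ := by
    by_contra hcon
    push Not at hcon
    have h3 : (theta n (1 : G)).re ≤ 0 := by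
      unfold theta
      rw [Complex.re_sum]
      refine Finset.sum_nonpos fun χ hχ => ?_
      obtain ⟨d, hd0, hdχ⟩ := Pool.Agent.W446.AS.irr_deg_pos (mem_irrF.mp hχ)
      rw [hdχ]
      have h4 : ((n χ : ℂ) * (d : ℂ)).re = (n χ : ℝ) * d := by
        rw [← Complex.ofReal_intCast, ← Complex.ofReal_natCast, ← Complex.ofReal_mul,
          Complex.ofReal_re]
      rw [h4]
      have h5 : (n χ : ℝ) ≤ 0 := by exact_mod_cast hcon χ (mem_irrF.mp hχ)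
      have h6 : (0 : ℝ) ≤ d := Nat.cast_nonneg d
      nlinarith
    rw [h1] at h3
    norm_num at h3
  obtain ⟨χ₀, hχ₀, hn₀⟩ := hpos
  set χ₁ : G → ℂ := fun g => χ₀ g⁻¹ with hχ₁
  have hχ₁i : χ₁ ∈ Irr G := Pool.Agent.Q7.DB.irr_inv hχ₀
  have hn₁ : n χ₁ = n χ₀ := n_conj n hreal hχ₀
  have hrest : ∀ S : Finset (G → ℂ), S ⊆ irrF G → ∑ χ ∈ S, f χ ≤ 2 := by
    intro S hS
    rw [← hsum]
    exact Finset.sum_le_sum_of_subset_of_nonneg hS (fun χ hχ _ => hnn χ (mem_irrF.mp hχ))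
  have hstep : ∀ χ ∈ Irr G, f χ = 0 → n χ = 0 ∨
      (n χ = -1 ∧ (∀ g, χ g⁻¹ = χ g) ∧ ∑ᶠ g, χ (g ^ 2) = -(Nat.card G : ℂ)) := by
    intro χ hχ h0
    change n χ ^ 2 - n χ * ν χ = 0 at h0
    have h0' : n χ * (n χ - ν χ) = 0 := by linear_combination h0
    rcases mul_eq_zero.mp h0' with h2 | h2
    · exact Or.inl h2
    · have hsumχ := (hν χ hχ).1
      rcases (hν χ hχ).2 with ⟨h, -⟩ | ⟨h, hr⟩ | ⟨h, -⟩
      · exfalso
        have h3 := hpar χ hχ h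
        have h4 : n χ = 1 := by omega
        rw [h4] at h3
        exact absurd h3 (by decide)
      · right
        refine ⟨by omega, hr, ?_⟩
        rw [hsumχ, h]
        push_cast
        ring
      · left; omega
  -- the other terms vanish once the terms of χ₀, χ₁ add up to 2
  have hothers : ∀ S : Finset (G → ℂ), S ⊆ irrF G → 2 ≤ ∑ χ ∈ S, f χ →
      ∀ χ ∈ Irr G, χ ∉ S → f χ = 0 := by
    intro S hS h2 χ hχ hχS
    have h3 := hrest (insert χ S) (by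
      intro x hx
      rcases Finset.mem_insert.mp hx with h | h
      · rw [h]; exact mem_irrF.mpr hχ
      · exact hS h)
    rw [Finset.sum_insert hχS] at h3
    have := hnn χ hχ
    omega
  rcases (hν χ₀ hχ₀).2 with ⟨h, ho, hr⟩ | ⟨h, hr⟩ | ⟨h, hr⟩
  · -- orthogonal
    have hev := hpar χ₀ hχ₀ h
    have h2 : 2 ≤ n χ₀ := by
      obtain ⟨k, hk⟩ := hev
      omega
    have h3 := hrest {χ₀} (by simpa using mem_irrF.mpr hχ₀)
    rw [Finset.sum_singleton] at h3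
    change n χ₀ ^ 2 - n χ₀ * ν χ₀ ≤ 2 at h3
    rw [h] at h3
    have h4 : n χ₀ = 2 := by nlinarith
    refine ⟨χ₀, hχ₀, hn₀, ?_, Or.inl ⟨h4, hr, ?_⟩⟩
    · intro χ hχ hne _
      apply hstep χ hχ
      refine hothers {χ₀} (by simpa using mem_irrF.mpr hχ₀) ?_ χ hχ (by simpa using hne)
      rw [Finset.sum_singleton]
      change 2 ≤ n χ₀ ^ 2 - n χ₀ * ν χ₀
      rw [h, h4]; norm_num
    · rw [(hν χ₀ hχ₀).1, h]; simp
  · -- symplectic
    have h3 := hrest {χ₀} (by simpa using mem_irrF.mpr hχ₀)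
    rw [Finset.sum_singleton] at h3
    change n χ₀ ^ 2 - n χ₀ * ν χ₀ ≤ 2 at h3
    rw [h] at h3
    have h4 : n χ₀ = 1 := by nlinarith
    refine ⟨χ₀, hχ₀, hn₀, ?_, Or.inr (Or.inl ⟨h4, hr, ?_⟩)⟩
    · intro χ hχ hne _
      apply hstep χ hχ
      refine hothers {χ₀} (by simpa using mem_irrF.mpr hχ₀) ?_ χ hχ (by simpa using hne)
      rw [Finset.sum_singleton]
      change 2 ≤ n χ₀ ^ 2 - n χ₀ * ν χ₀
      rw [h, h4]; norm_num
    · rw [(hν χ₀ hχ₀).1, h]; simp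
  · -- complex
    have hne01 : χ₀ ≠ χ₁ := by
      intro he
      obtain ⟨g, hg⟩ := hr
      exact hg (congrFun he g).symm
    have hν1 : ν χ₁ = 0 := by
      rcases (hν χ₁ hχ₁i).2 with ⟨-, -, hr'⟩ | ⟨-, hr'⟩ | ⟨h', -⟩
      · exfalso
        apply hne01
        funext g
        have := hr' g
        simp only [hχ₁, inv_inv] at this
        exact this
      · exfalso
        apply hne01
        funext g
        have := hr' g
        simp only [hχ₁, inv_inv] at this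
        exact this
      · exact h'
    have hsub : ({χ₀, χ₁} : Finset (G → ℂ)) ⊆ irrF G := by
      intro x hx
      rcases Finset.mem_insert.mp hx with h | h
      · rw [h]; exact mem_irrF.mpr hχ₀
      · rw [Finset.mem_singleton.mp h]; exact mem_irrF.mpr hχ₁i
    have h3 := hrest {χ₀, χ₁} hsub
    rw [Finset.sum_pair hne01] at h3
    change (n χ₀ ^ 2 - n χ₀ * ν χ₀) + (n χ₁ ^ 2 - n χ₁ * ν χ₁) ≤ 2 at h3
    rw [h, hν1, hn₁] at h3
    have h4 : n χ₀ = 1 := by nlinarith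
    refine ⟨χ₀, hχ₀, hn₀, ?_, Or.inr (Or.inr ⟨h4, by rw [← hχ₁, hn₁, h4], hr⟩)⟩
    intro χ hχ hne hne'
    apply hstep χ hχ
    refine hothers {χ₀, χ₁} hsub ?_ χ hχ ?_
    · rw [Finset.sum_pair hne01]
      change 2 ≤ (n χ₀ ^ 2 - n χ₀ * ν χ₀) + (n χ₁ ^ 2 - n χ₁ * ν χ₁)
      rw [h, hν1, hn₁, h4]; norm_num
    · simp only [Finset.mem_insert, Finset.mem_singleton, not_or]
      exact ⟨hne, hne'⟩

end

end Pool.Agent.Q7.TZ
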