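import Mathlib
import Pool.Agent.Q7.TZ.Pat

/-!
# Involutions act as scalars on the constituents
-/

set_option autoImplicit false
set_option linter.unusedSectionVars false

open Representation

namespace Pool.Agent.Q7.TZ

open Pool.Agent.H302R2 Pool.Agent.H541R3.ART

section

variable {G : Type} [Group G] [Finite G]

/-- an elementary inequality -/
lemma variance {ι : Type*} (S : Finset ι) (n d w : ι → ℝ) (i₀ : ι)
    (hd : ∀ i ∈ S, 0 < d i) (hpos : ∀ i ∈ S, 0 < n i → w i / d i = w i₀ / d i₀)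
    (h1 : ∑ i ∈ S, n i * d i = 2) (h2 : ∑ i ∈ S, n i * w i = 0)
    (h3 : ∑ i ∈ S, n i * (w i ^ 2 / d i) = 0) : ∀ i ∈ S, n i ≠ 0 → w i = 0 := by
  set r := w i₀ / d i₀ with hr
  have e1 : ∑ i ∈ S, n i * d i * (w i / d i - r) ^ 2 = 2 * r ^ 2 := by
    have e2 : ∀ i ∈ S, n i * d i * (w i / d i - r) ^ 2
        = n i * (w i ^ 2 / d i) - 2 * r * (n i * w i) + r ^ 2 * (n i * d i) := by
      intro i hi
      have := (hd i hi).ne'
      field_simp
      ring
    rw [Finset.sum_congr rfl e2, Finset.sum_add_distrib, Finset.sum_sub_distrib,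
      ← Finset.mul_sum, ← Finset.mul_sum, h1, h2, h3]
    ring
  have e3 : ∀ i ∈ S, n i * d i * (w i / d i - r) ^ 2 ≤ 0 := by
    intro i hi
    rcases le_or_gt (n i) 0 with h | h
    · have h4 := hd i hi
      have h5 : n i * d i ≤ 0 := mul_nonpos_of_nonpos_of_nonneg h h4.le
      exact mul_nonpos_of_nonpos_of_nonneg h5 (sq_nonneg _)
    · rw [hpos i hi h, sub_self]
      simp
  have e4 : 2 * r ^ 2 ≤ 0 := by
    rw [← e1]
    exact Finset.sum_nonpos e3
  have hr0 : r = 0 := by nlinarith [sq_nonneg r]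
  rw [hr0] at e1 e3
  have e5 : ∑ i ∈ S, n i * d i * (w i / d i - 0) ^ 2 = 0 := by rw [e1]; ring
  have e6 := (Finset.sum_eq_zero_iff_of_nonpos e3).mp e5
  intro i hi hn
  have e7 := e6 i hi
  have h4 := (hd i hi).ne'
  rcases mul_eq_zero.mp e7 with h | h
  · rcases mul_eq_zero.mp h with h | h
    · exact absurd h hn
    · exact absurd h h4
  · have h5 := pow_eq_zero_iff (two_ne_zero) |>.mp h
    rw [sub_zero] at h5
    exact (div_eq_zero_iff.mp h5).resolve_right h4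

lemma int_invol {φ : G → ℂ} (hφ : IsHeilbronn φ) {t : G} (ht : t * t = 1) :
    ∃ a : ℤ, φ t = a := by
  obtain ⟨s, hs⟩ := (hφ.comp (Subgroup.zpowers t).subtype).comm_multiset (zpowers_comm t)
  have h := hs ⟨t, Subgroup.mem_zpowers t⟩
  change φ t = _ at h
  rw [h]
  clear h hs
  induction s using Multiset.induction_on with
  | empty => exact ⟨0, by simp⟩
  | cons ψ s ih =>
    obtain ⟨a, ha⟩ := ih
    rw [Multiset.map_cons, Multiset.sum_cons, ha]
    have h1 : ψ ⟨t, Subgroup.mem_zpowers t⟩ * ψ ⟨t, Subgroup.mem_zpowers t⟩ = 1 := by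
      rw [← map_mul]
      have : (⟨t, Subgroup.mem_zpowers t⟩ : Subgroup.zpowers t) * ⟨t, Subgroup.mem_zpowers t⟩ = 1 :=
        Subtype.ext ht
      rw [this, map_one]
    have h2 : ((ψ ⟨t, Subgroup.mem_zpowers t⟩ : ℂˣ) : ℂ) * ((ψ ⟨t, Subgroup.mem_zpowers t⟩ : ℂˣ) : ℂ)
        = 1 := by
      rw [← Units.val_mul, h1, Units.val_one]
    rcases mul_self_eq_one_iff.mp h2 with h3 | h3
    · exact ⟨1 + a, by rw [h3]; push_cast; ring⟩
    · exact ⟨-1 + a, by rw [h3]; push_cast; ring⟩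

/-- Involutions act as scalars on the constituents of a Heilbronn character of degree two and
determinant one. -/
theorem invol_scalar (n : (G → ℂ) → ℤ) (hθ : IsHeilbronn (theta n : G → ℂ))
    (h1 : (theta n : G → ℂ) 1 = 2) (hd : ∀ g : G, dd (theta n) g = 1) {t : G} (ht : t * t = 1) :
    ∃ ε : ℝ, (ε = 1 ∨ ε = -1) ∧ theta n t = 2 * ε ∧ ∀ χ ∈ Irr G, n χ ≠ 0 → χ t = ε * χ 1 := by
  classical
  have : Fintype G := Fintype.ofFinite G
  have hG : (Nat.card G : ℂ) ≠ 0 := by exact_mod_cast Nat.card_pos.ne'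
  obtain ⟨χ₀, hχ₀, hn₀, hoth, -⟩ := pattern n hθ h1 hd
  have htinv : t⁻¹ = t := inv_eq_of_mul_eq_one_left ht
  -- the value at t
  have hε : ∃ ε : ℝ, (ε = 1 ∨ ε = -1) ∧ theta n t = 2 * ε := by
    have h2 := dd_rel hd t
    rw [pow_two t, ht, h1] at h2
    have h3 : (theta n t - 2) * (theta n t + 2) = 0 := by linear_combination h2
    rcases mul_eq_zero.mp h3 with h | h
    · exact ⟨1, Or.inl rfl, by push_cast; linear_combination h⟩
    · exact ⟨-1, Or.inr rfl, by push_cast; linear_combination h⟩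
  obtain ⟨ε, hε1, hεt⟩ := hε
  refine ⟨ε, hε1, hεt, ?_⟩
  have hεε : ε * ε = 1 := by rcases hε1 with h | h <;> rw [h] <;> norm_num
  -- degrees and values
  have hd' : ∀ χ : G → ℂ, ∃ d : ℕ, χ ∈ Irr G → 0 < d ∧ χ 1 = d := by
    intro χ
    by_cases h : χ ∈ Irr G
    · obtain ⟨d, hd⟩ := Pool.Agent.W446.AS.irr_deg_pos h
      exact ⟨d, fun _ => hd⟩
    · exact ⟨0, fun h' => absurd h' h⟩
  choose d hd2 using hd'
  have ha' : ∀ χ : G → ℂ, ∃ a : ℤ, χ ∈ Irr G → χ t = a := by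
    intro χ
    by_cases h : χ ∈ Irr G
    · obtain ⟨a, ha⟩ := int_invol (Pool.Agent.W446.AS.irr_heilbronn h) ht
      exact ⟨a, fun _ => ha⟩
    · exact ⟨0, fun h' => absurd h' h⟩
  choose a ha using ha'
  -- the three sums
  have s1 : ∑ χ ∈ irrF G, (n χ : ℂ) * d χ = 2 := by
    rw [← h1, theta]
    refine Finset.sum_congr rfl fun χ hχ => ?_
    rw [(hd2 χ (mem_irrF.mp hχ)).2]
  have s2 : ∑ χ ∈ irrF G, (n χ : ℂ) * a χ = 2 * ε := by
    rw [← hεt, theta]
    refine Finset.sum_congr rfl fun χ hχ => ?_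
    rw [ha χ (mem_irrF.mp hχ)]
  have s3 : ∑ χ ∈ irrF G, (n χ : ℂ) * ((a χ : ℂ) ^ 2 / d χ) = 2 := by
    have e1 : ∑ x : G, theta n (t * (x * t * x⁻¹)) = 2 * Nat.card G := by
      have e2 : ∀ x : G, theta n (t * (x * t * x⁻¹)) = 2 := by
        intro x
        rw [← h1]
        apply inv_pair hθ ht
        · have : x * t * x⁻¹ * (x * t * x⁻¹) = x * (t * t) * x⁻¹ := by group
          rw [this, ht]; group
        · rw [hεt, h1]
          rcases hε1 with h | h
          · left; rw [h]; push_cast; ring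
          · right; rw [h]; push_cast; ring
        · exact hθ.conj t x
      rw [Finset.sum_congr rfl (fun x _ => e2 x), Finset.sum_const, Finset.card_univ,
        nsmul_eq_mul, ← Nat.card_eq_fintype_card]
      ring
    have e3 : ∑ x : G, theta n (t * (x * t * x⁻¹))
        = (∑ χ ∈ irrF G, (n χ : ℂ) * ((a χ : ℂ) ^ 2 / d χ)) * Nat.card G := by
      unfold theta
      rw [Finset.sum_comm, Finset.sum_mul]
      refine Finset.sum_congr rfl fun χ hχ => ?_
      have h4 := sum_conj_mul (mem_irrF.mp hχ) t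
      rw [(hd2 χ (mem_irrF.mp hχ)).2, ha χ (mem_irrF.mp hχ)] at h4
      have h5 : (d χ : ℂ) ≠ 0 := by exact_mod_cast (hd2 χ (mem_irrF.mp hχ)).1.ne'
      rw [← Finset.mul_sum, eq_div_iff h5 |>.mpr h4]
      ring
    rw [e3] at e1
    exact mul_right_cancel₀ hG e1
  -- back to the reals
  have r1 : ∑ χ ∈ irrF G, (n χ : ℝ) * d χ = 2 := by exact_mod_cast s1
  have r2 : ∑ χ ∈ irrF G, (n χ : ℝ) * a χ = 2 * ε := by exact_mod_cast s2
  have r3 : ∑ χ ∈ irrF G, (n χ : ℝ) * ((a χ : ℝ) ^ 2 / d χ) = 2 := by exact_mod_cast s3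
  have hdpos : ∀ χ ∈ irrF G, (0 : ℝ) < d χ := by
    intro χ hχ
    exact_mod_cast (hd2 χ (mem_irrF.mp hχ)).1
  have hv := variance (irrF G) (fun χ => (n χ : ℝ)) (fun χ => (d χ : ℝ))
    (fun χ => (d χ : ℝ) - ε * a χ) χ₀ hdpos ?_ r1 ?_ ?_
  · intro χ hχ hn
    have h5 := hv χ (mem_irrF.mpr hχ) (by exact_mod_cast hn)
    rw [ha χ hχ, (hd2 χ hχ).2]
    have h6 : (a χ : ℝ) = ε * d χ := by
      have : (a χ : ℝ) = (ε * ε) * a χ := by rw [hεε, one_mul]
      rw [this]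
      linear_combination -ε * h5
    exact_mod_cast h6
  · intro χ hχ hn
    have hχi := mem_irrF.mp hχ
    have hn' : 0 < n χ := by exact_mod_cast hn
    by_cases e1 : χ = χ₀
    · rw [e1]
    · by_cases e2 : χ = (fun g => χ₀ g⁻¹)
      · have h6 : χ t = χ₀ t := by rw [e2]; simp only [htinv]
        have h7 : χ 1 = χ₀ 1 := by rw [e2]; simp only [inv_one]
        rw [ha χ hχi, ha χ₀ hχ₀] at h6
        rw [(hd2 χ hχi).2, (hd2 χ₀ hχ₀).2] at h7
        have h8 : (a χ : ℝ) = a χ₀ := by exact_mod_cast h6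
        have h9 : (d χ : ℝ) = d χ₀ := by exact_mod_cast h7
        rw [h8, h9]
      · rcases hoth χ hχi e1 e2 with h | ⟨h, -⟩ <;> omega
  · simp only [mul_sub]
    rw [Finset.sum_sub_distrib, r1]
    have : ∑ χ ∈ irrF G, (n χ : ℝ) * (ε * a χ) = ε * (∑ χ ∈ irrF G, (n χ : ℝ) * a χ) := by
      rw [Finset.mul_sum]
      exact Finset.sum_congr rfl fun χ _ => by ring
    rw [this, r2]
    linear_combination (-2) * hεε
  · have : ∀ χ ∈ irrF G, (n χ : ℝ) * (((d χ : ℝ) - ε * a χ) ^ 2 / d χ)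
        = n χ * d χ - 2 * ε * (n χ * a χ) + (n χ : ℝ) * ((a χ : ℝ) ^ 2 / d χ) := by
      intro χ hχ
      have := (hdpos χ hχ).ne'
      field_simp
      linear_combination (n χ : ℝ) * (a χ : ℝ) ^ 2 * hεε
    rw [Finset.sum_congr rfl this, Finset.sum_add_distrib, Finset.sum_sub_distrib,
      ← Finset.mul_sum, r1, r2, r3]
    linear_combination (-4) * hεε

end

end Pool.Agent.Q7.TZ
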