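import Mathlib
import Pool.Agent.Q7.TZ.Var
import Pool.Agent.Y788.VFin

/-!
# Quotients
-/

set_option autoImplicit false
set_option linter.unusedSectionVars false

open Representation

namespace Pool.Agent.Q7.TZ

open Pool.Agent.H302R2 Pool.Agent.H541R3.ART Pool.Agent.W446.AS Pool.Agent.H302R5
  Pool.Agent.H302R6 Pool.Agent.Y788.V

section

variable {G : Type} [Group G] [Finite G]

lemma virt_theta {θ : G → ℂ} (hv : Virt θ) :
    ∃ n : (G → ℂ) → ℤ, θ = theta n ∧ ∀ χ ∈ Irr G, pr θ χ = n χ := by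
  classical
  have h : ∀ χ : G → ℂ, ∃ k : ℤ, χ ∈ Irr G → pr θ χ = k := by
    intro χ
    by_cases hχ : χ ∈ Irr G
    · obtain ⟨k, hk⟩ := hv.pr_int hχ
      exact ⟨k, fun _ => hk⟩
    · exact ⟨0, fun h => absurd h hχ⟩
  choose n hn using h
  refine ⟨n, ?_, fun χ hχ => hn χ hχ⟩
  funext g
  rw [hv.expand g, theta]
  refine Finset.sum_congr rfl fun χ hχ => by rw [hn χ (mem_irrF.mp hχ)]

lemma pr_theta (n : (G → ℂ) → ℤ) {χ : G → ℂ} (hχ : χ ∈ Irr G) : pr (theta n) χ = n χ := by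
  classical
  have : Fintype G := Fintype.ofFinite G
  rw [pr_eq, theta_pair n hχ]
  have h4 : (Nat.card G : ℂ) ≠ 0 := card_ne
  field_simp

lemma invol_scalar' {θ : G → ℂ} (hθ : IsHeilbronn θ) (hv : Virt θ) (h1 : θ 1 = 2)
    (hd : ∀ g : G, dd θ g = 1) {t : G} (ht : t * t = 1) :
    ∃ ε : ℝ, (ε = 1 ∨ ε = -1) ∧ θ t = 2 * ε ∧ ∀ χ ∈ Irr G, pr θ χ ≠ 0 → χ t = ε * χ 1 := by
  obtain ⟨n, rfl, hn⟩ := virt_theta hv
  obtain ⟨ε, hε, h2, h3⟩ := invol_scalar n hθ h1 hd ht
  refine ⟨ε, hε, h2, fun χ hχ hne => h3 χ hχ ?_⟩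
  intro h0
  rw [hn χ hχ, h0] at hne
  exact hne (by simp)

/-- the common kernel of the constituents -/
def KerS (θ : G → ℂ) : Subgroup G where
  carrier := {x | ∀ (n : ℕ) (ρ : Representation ℂ G (Fin n → ℂ)), Irred ρ →
    pr θ ρ.character ≠ 0 → ρ x = 1}
  mul_mem' := by
    intro a b ha hb n ρ hρ hp
    rw [map_mul, ha n ρ hρ hp, hb n ρ hρ hp, one_mul]
  one_mem' := by
    intro n ρ _ _
    exact map_one ρ
  inv_mem' := by
    intro a ha n ρ hρ hp
    have h1 := ha n ρ hρ hp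
    have h2 : ρ a⁻¹ * ρ a = 1 := by rw [← map_mul, inv_mul_cancel, map_one]
    rw [h1, mul_one] at h2
    exact h2

instance kerS_normal (θ : G → ℂ) : (KerS θ).Normal where
  conj_mem x hx g := by
    intro n ρ hρ hp
    rw [map_mul, map_mul, hx n ρ hρ hp, mul_one, ← map_mul, mul_inv_cancel, map_one]

lemma mem_kerS {θ : G → ℂ} {x : G} :
    x ∈ KerS θ ↔ ∀ χ ∈ Irr G, pr θ χ ≠ 0 → χ x = χ 1 := by
  constructor
  · intro h χ hχ hp
    obtain ⟨n, ρ, hρ, rfl⟩ := exists_rep hχ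
    have h1 := h n ρ hρ hp
    change LinearMap.trace ℂ _ (ρ x) = LinearMap.trace ℂ _ (ρ 1)
    rw [h1, map_one ρ]
  · intro h n ρ hρ hp
    exact rep_triv ρ (h _ (irr_of_irred hρ) hp)

/-- constituents are trivial on the kernel -/
lemma mul_kerS {θ : G → ℂ} {χ : G → ℂ} (hχ : χ ∈ Irr G) (hp : pr θ χ ≠ 0) (g : G) {x : G}
    (hx : x ∈ KerS θ) : χ (g * x) = χ g := by
  obtain ⟨n, ρ, hρ, rfl⟩ := exists_rep hχ
  have h1 := hx n ρ hρ hp
  change LinearMap.trace ℂ _ (ρ (g * x)) = LinearMap.trace ℂ _ (ρ g)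
  rw [map_mul, h1, mul_one]

lemma theta_kerS {θ : G → ℂ} (hv : Virt θ) (g : G) {x : G} (hx : x ∈ KerS θ) :
    θ (g * x) = θ g := by
  rw [hv.expand, hv.expand]
  refine Finset.sum_congr rfl fun χ hχ => ?_
  by_cases hp : pr θ χ = 0
  · rw [hp, zero_mul, zero_mul]
  · rw [mul_kerS (mem_irrF.mp hχ) hp g hx]

variable {Y : Type} [Group Y] [Finite Y] {π : G →* Y}

lemma push_kerS [Fintype G] {θ : G → ℂ} (hv : Virt θ)
    (hk : π.ker ≤ KerS θ) (g : G) : push π θ (π g) = θ g := by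
  classical
  have : Fintype π.ker := Fintype.ofFinite _
  rw [push_apply]
  have h3 : ∀ n : π.ker, θ (g * n) = θ g := fun n => theta_kerS hv g (hk n.2)
  rw [Finset.sum_congr rfl (fun n _ => h3 n), Finset.sum_const, Finset.card_univ,
    nsmul_eq_mul, ← Nat.card_eq_fintype_card]
  have h4 : (Nat.card π.ker : ℂ) ≠ 0 := card_ne
  field_simp

lemma descend_const [Fintype G] (hπ : Function.Surjective π) {θ : G → ℂ}
    (hk : π.ker ≤ KerS θ) {χ : G → ℂ} (hχ : χ ∈ Irr G) (hp : pr θ χ ≠ 0) :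
    ∃ ψ ∈ Irr Y, χ = (fun g => ψ (π g)) ∧ pr (push π θ) ψ = pr θ χ := by
  obtain ⟨n, ρ, hρ, rfl⟩ := exists_rep hχ
  obtain ⟨ψ, hψ, h1⟩ := descend_irr hπ hρ (fun g hg => hk hg n ρ hρ hp)
  have h2 : ρ.character = (fun g => ψ (π g)) := funext h1
  exact ⟨ψ, hψ, h2, by rw [pr_push hπ, ← h2]⟩

/-- the descended function -/
lemma push_facts [Fintype G] (hπ : Function.Surjective π) {θ : G → ℂ} (hθ : IsHeilbronn θ)
    (hv : Virt θ) (h1 : θ 1 = 2) (hd : ∀ g : G, dd θ g = 1) (hk : π.ker ≤ KerS θ) :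
    IsHeilbronn (push π θ) ∧ Virt (push π θ) ∧ push π θ 1 = 2 ∧ ∀ y, dd (push π θ) y = 1 := by
  refine ⟨push_isHeilbronn hπ hθ, hv.push hπ, ?_, ?_⟩
  · rw [← map_one π, push_kerS hv hk, h1]
  · intro y
    obtain ⟨g, rfl⟩ := hπ y
    unfold dd
    rw [← map_pow, push_kerS hv hk, push_kerS hv hk]
    exact hd g

/-- involutions modulo the kernel -/
theorem invol_mod {θ : G → ℂ} (hθ : IsHeilbronn θ) (hv : Virt θ) (h1 : θ 1 = 2)
    (hd : ∀ g : G, dd θ g = 1) {t : G} (ht : t * t ∈ KerS θ) :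
    ∃ ε : ℝ, (ε = 1 ∨ ε = -1) ∧ θ t = 2 * ε ∧ ∀ χ ∈ Irr G, pr θ χ ≠ 0 → χ t = ε * χ 1 := by
  classical
  have : Fintype G := Fintype.ofFinite G
  let π : G →* G ⧸ KerS θ := QuotientGroup.mk' (KerS θ)
  have hπ : Function.Surjective π := QuotientGroup.mk'_surjective _
  have hk : π.ker ≤ KerS θ := by rw [QuotientGroup.ker_mk']
  obtain ⟨f1, f2, f3, f4⟩ := push_facts hπ hθ hv h1 hd hk
  have ht' : π t * π t = 1 := by
    rw [← map_mul]
    exact (QuotientGroup.eq_one_iff _).mpr ht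
  obtain ⟨ε, hε, h2, h3⟩ := invol_scalar' f1 f2 f3 f4 ht'
  refine ⟨ε, hε, by rw [← push_kerS hv hk, h2], fun χ hχ hp => ?_⟩
  obtain ⟨ψ, hψ, h4, h5⟩ := descend_const hπ hk hχ hp
  have h6 := h3 ψ hψ (by rw [h5]; exact hp)
  rw [h4]
  simp only [map_one]
  exact h6

/-- There is at most one involution modulo the kernel. -/
theorem unique_invol {θ : G → ℂ} (hθ : IsHeilbronn θ) (hv : Virt θ) (h1 : θ 1 = 2)
    (hd : ∀ g : G, dd θ g = 1) {t u : G ⧸ KerS θ} (ht : t * t = 1) (hu : u * u = 1)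
    (ht1 : t ≠ 1) (hu1 : u ≠ 1) : t = u := by
  classical
  obtain ⟨t, rfl⟩ := QuotientGroup.mk_surjective t
  obtain ⟨u, rfl⟩ := QuotientGroup.mk_surjective u
  have key : ∀ t : G, (t : G ⧸ KerS θ) * t = 1 → (t : G ⧸ KerS θ) ≠ 1 →
      ∀ (n : ℕ) (ρ : Representation ℂ G (Fin n → ℂ)), Irred ρ → pr θ ρ.character ≠ 0 →
      ∀ v, ρ t v = -v := by
    intro t ht ht1
    have ht' : t * t ∈ KerS θ := by
      rw [← QuotientGroup.mk_mul] at ht
      exact (QuotientGroup.eq_one_iff _).mp ht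
    obtain ⟨ε, hε, -, h3⟩ := invol_mod hθ hv h1 hd ht'
    rcases hε with h | h
    · exfalso
      apply ht1
      apply (QuotientGroup.eq_one_iff _).mpr
      rw [mem_kerS]
      intro χ hχ hp
      rw [h3 χ hχ hp, h]
      push_cast
      ring
    · intro n ρ hρ hp
      -- the operator `-ρ t` is trivial
      have h4 := h3 _ (irr_of_irred hρ) hp
      rw [h] at h4
      push_cast at h4
      have hn : ‖ρ.character t‖ = n := by
        rw [h4, Representation.char_one, Module.finrank_fin_fun]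
        simp
      obtain ⟨c, hc⟩ := rep_scal ρ hn
      have hn0 : (n : ℂ) ≠ 0 := by
        have := hρ.1
        have h5 : 0 < n := by
          rcases Nat.eq_zero_or_pos n with h0 | h0
          · subst h0
            exact absurd this (not_nontrivial_iff_subsingleton.mpr inferInstance)
          · exact h0
        exact_mod_cast h5.ne'
      have h6 : ρ.character t = c * n := by
        change LinearMap.trace ℂ _ (ρ t) = _
        rw [hc, map_smul, smul_eq_mul, LinearMap.trace_one, Module.finrank_fin_fun]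
      rw [h4, Representation.char_one, Module.finrank_fin_fun] at h6
      have h7 : c = -1 := by
        have : (c + 1) * (n : ℂ) = 0 := by linear_combination -h6
        have := (mul_eq_zero.mp this).resolve_right hn0
        linear_combination this
      intro v
      rw [hc, h7, LinearMap.smul_apply, neg_smul, one_smul]
      rfl
  have h2 := key t ht ht1
  have h3 := key u hu hu1
  rw [QuotientGroup.eq]
  intro n ρ hρ hp
  have h4 : ∀ v, ρ t⁻¹ v = -v := by
    intro v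
    have h5 : ρ t⁻¹ (ρ t (-v)) = -v := by
      rw [← Module.End.mul_apply, ← map_mul, inv_mul_cancel, map_one, Module.End.one_apply]
    rw [h2 n ρ hρ hp, neg_neg] at h5
    exact h5
  refine LinearMap.ext fun v => ?_
  rw [map_mul, Module.End.mul_apply, h3 n ρ hρ hp, h4, neg_neg, Module.End.one_apply]

end

end Pool.Agent.Q7.TZ
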