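import Mathlib
import Pool.Agent.Q7.TZ.Quo

/-!
# Perfect groups without quotients with exactly one involution
-/

set_option autoImplicit false
set_option linter.unusedSectionVars false

open Representation

namespace Pool.Agent.Q7.TZ

open Pool.Agent.H302R2 Pool.Agent.H541R3.ART Pool.Agent.W446.AS Pool.Agent.H302R5
  Pool.Agent.H302R6 Pool.Agent.Y788.V Pool.Agent.Y788

section

/-- perfect groups of odd order -/
lemma rigid_odd {M : Type} [Group M] [Finite M] (hM : Group.IsPerfect M)
    (hodd : ∀ t : M, t * t = 1 → t = 1) : RigidV 2 M := by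
  apply rigid_of_locQ hM
  intro s p hs hp hps _
  have hp2 : p = 2 := by have := hp.two_le; omega
  subst hp2
  intro P σ _ _ x
  have hx1 : x = 1 := by
    by_contra hne
    obtain ⟨k, hk⟩ := P.2 x
    -- minimal exponent
    have hex : ∃ k : ℕ, x ^ 2 ^ k = 1 := ⟨k, hk⟩
    classical
    have h1 := Nat.find_spec hex
    have h0 : Nat.find hex ≠ 0 := by
      intro h
      rw [h, pow_zero, pow_one] at h1
      exact hne h1
    obtain ⟨m, hm⟩ := Nat.exists_eq_succ_of_ne_zero h0
    have h2 : ¬ (x ^ 2 ^ m = 1) := Nat.find_min hex (by omega)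
    apply h2
    have h3 : ((x ^ 2 ^ m : (P : Subgroup M)) : M) * ((x ^ 2 ^ m : (P : Subgroup M)) : M) = 1 := by
      rw [← Subgroup.coe_mul, ← pow_add, ← two_mul, ← pow_succ']
      rw [hm] at h1
      rw [h1]
      rfl
    exact Subtype.ext (hodd _ h3)
  exact ⟨1, by rw [hx1, map_one, one_smul]⟩

lemma perfect_hom {N : Type} [Group N] (hN : Group.IsPerfect N) (D : N →* ℂˣ) (x : N) :
    D x = 1 := by
  have h6 : commutator N ≤ D.ker := Abelianization.commutator_subset_ker D
  rw [hN.commutator_eq_top] at h6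
  exact h6 (Subgroup.mem_top x)

/-- a perfect group without a quotient with exactly one involution -/
theorem rigid_two {N : Type} [Group N] [Finite N] (hN : Group.IsPerfect N)
    (hq : ∀ (M : Type) [Group M] (f : N →* M), Function.Surjective f →
      ¬ ∃! t : M, t ≠ 1 ∧ t * t = 1) : RigidV 2 N := by
  classical
  intro η hη hv s hs h1 x
  have : Fintype N := Fintype.ofFinite N
  have hcases : s = 0 ∨ s = 1 ∨ s = 2 := by omega
  rcases hcases with rfl | rfl | rfl
  · have h2 := hη.norm_le x
    rw [h1] at h2 ⊢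
    simpa using h2
  · obtain ⟨ψ, hψ⟩ := hη.deg_one (by rw [h1]; simp)
    rw [hψ, hψ, perfect_hom hN, perfect_hom hN]
  · have h1' : η 1 = 2 := by rw [h1]; simp
    obtain ⟨D, hD⟩ := hη.exists_det h1'
    have hd : ∀ g, dd η g = 1 := by
      intro g
      rw [← hD, perfect_hom hN, Units.val_one]
    have hno := hq (N ⧸ KerS η) (QuotientGroup.mk' _) (QuotientGroup.mk'_surjective _)
    have hodd : ∀ t : N ⧸ KerS η, t * t = 1 → t = 1 := by
      intro t ht
      by_contra hne
      exact hno ⟨t, ⟨hne, ht⟩, fun u hu => unique_invol hη hv h1' hd hu.2 ht hu.1 hne⟩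
    have hM := rigid_odd (M := N ⧸ KerS η) inferInstance hodd
    have hπ : Function.Surjective (QuotientGroup.mk' (KerS η)) := QuotientGroup.mk'_surjective _
    have hk : (QuotientGroup.mk' (KerS η)).ker ≤ KerS η := by rw [QuotientGroup.ker_mk']
    obtain ⟨f1, f2, f3, f4⟩ := push_facts hπ hη hv h1' hd hk
    have h5 := hM _ f1 f2 2 le_rfl (by rw [f3]; simp) (QuotientGroup.mk' (KerS η) x)
    rw [push_kerS hv hk, f3] at h5
    rw [h5, h1']

end

end Pool.Agent.Q7.TZ
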