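import Mathlib
import Pool.Agent.Q7.TZ.Rig

/-!
# At most three constituents
-/

set_option autoImplicit false
set_option linter.unusedSectionVars false

open Representation

namespace Pool.Agent.Q7.TZ

open Pool.Agent.H302R2 Pool.Agent.H541R3.ART Pool.Agent.W446.AS

section

variable {G : Type} [Group G] [Finite G]

/-- If all values are `2` or `-2`, all multiplicities are even. -/
theorem even_all {θ : G → ℂ} (hθ : IsHeilbronn θ) (h1 : θ 1 = 2) (hd : ∀ g, dd θ g = 1)
    (h2 : ∀ g, θ g = 2 ∨ θ g = -2) {χ : G → ℂ} (hχ : χ ∈ Irr G) {n : ℤ}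
    (hn : ∑ᶠ g : G, θ g * χ g⁻¹ = n * Nat.card G) : Even n := by
  classical
  have hχ' := Pool.Agent.Q7.DB.irr_inv hχ
  refine even_of_hyper (Φ := fun g => θ g * χ g⁻¹) (fun g h => ?_) (fun g => ?_)
    (fun U hU => ?_) hn
  · have h3 : χ (h * g * h⁻¹)⁻¹ = χ g⁻¹ := Irr.conj hχ' g h
    rw [hθ.conj, h3]
  · exact (hθ.isIntegral_two h1 g).mul (isIntegral_heil (irr_heilbronn hχ) g⁻¹)
  · have : Fintype U := Fintype.ofFinite U
    have hs := hyp_str _ U rfl hU (fun u => θ u) (hθ.comp U.subtype) h1 (fun u => hd u)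
    rcases hs with ⟨l, hl⟩ | ⟨A, l, w, hwA, -, -, hoff, -⟩
    · obtain ⟨m, hm⟩ := exists_mult hχ U l
      refine ⟨m, ?_⟩
      have h3 : ∀ u : U, θ u = 2 * ((l u : ℂˣ) : ℂ) := by
        intro u
        have h4 := hl u
        have h5 : ((l u : ℂˣ) : ℂ) * (((l u)⁻¹ : ℂˣ) : ℂ) = 1 := by
          rw [← Units.val_mul, mul_inv_cancel, Units.val_one]
        simp only at h4
        have h6 : (((l u : ℂˣ) : ℂ) - (((l u)⁻¹ : ℂˣ) : ℂ)) ^ 2 = 0 := by
          have h7 : θ u ^ 2 = 4 := by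
            rcases h2 u with h | h <;> rw [h] <;> norm_num
          rw [h4] at h7
          linear_combination h7 - 4 * h5
        have h8 := pow_eq_zero_iff (two_ne_zero) |>.mp h6
        rw [h4]
        linear_combination -h8
      rw [finsum_eq_sum_of_fintype] at hm ⊢
      have h9 : ∑ u : U, θ u * χ (u : G)⁻¹ = 2 * ∑ u : U, χ u * (((l u)⁻¹ : ℂˣ) : ℂ) := by
        rw [Finset.mul_sum, ← Equiv.sum_comp (Equiv.inv U)]
        refine Finset.sum_congr rfl fun u _ => ?_
        rw [Equiv.inv_apply, h3, Subgroup.coe_inv, inv_inv, map_inv]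
        ring
      rw [h9, hm]
      ring
    · exfalso
      have h3 := hoff w hwA
      simp only at h3
      rcases h2 w with h | h <;> rw [h] at h3 <;> norm_num at h3

lemma sum_sq_le (n : (G → ℂ) → ℤ) (hθ : IsHeilbronn (theta n : G → ℂ))
    (h1 : (theta n : G → ℂ) 1 = 2) (hd : ∀ g : G, dd (theta n) g = 1) :
    (∑ χ ∈ irrF G, n χ ^ 2 ≤ 4) ∧
    ((∑ χ ∈ irrF G, n χ ^ 2 ≤ 3) ∨ ∀ χ ∈ Irr G, Even (n χ)) := by
  classical
  have : Fintype G := Fintype.ofFinite G
  have hG : (Nat.card G : ℂ) ≠ 0 := by exact_mod_cast Nat.card_pos.ne'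
  have hGr : (0 : ℝ) < Nat.card G := by exact_mod_cast Nat.card_pos
  have e1 : ∑ g : G, theta n g * theta n g⁻¹ = (∑ χ ∈ irrF G, (n χ : ℂ) ^ 2) * Nat.card G := by
    have h2 : ∀ g : G, theta n g * theta n g⁻¹ = ∑ χ ∈ irrF G, (n χ : ℂ) * (theta n g * χ g⁻¹) := by
      intro g
      conv_lhs => rw [theta.eq_1 (G := G) n g⁻¹]
      rw [Finset.mul_sum]
      refine Finset.sum_congr rfl fun χ _ => by ring
    rw [Finset.sum_congr rfl (fun g _ => h2 g), Finset.sum_comm, Finset.sum_mul]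
    refine Finset.sum_congr rfl fun χ hχ => ?_
    rw [← Finset.mul_sum, theta_pair n (mem_irrF.mp hχ)]
    ring
  have hx : ∀ g : G, ∃ x : ℝ, theta n g = x ∧ x ^ 2 ≤ 4 := by
    intro g
    obtain ⟨a, b, ha, hb, hp, hs, -⟩ := hθ.two_eig h1 g
    rw [hd] at hp
    have hab : b = (starRingEnd ℂ) a := by
      have h3 : a * (starRingEnd ℂ) a = 1 := by
        rw [Complex.mul_conj, Complex.normSq_eq_norm_sq, ha]; norm_num
      have ha0 : a ≠ 0 := by rw [← norm_ne_zero_iff, ha]; norm_num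
      exact mul_left_cancel₀ ha0 (hp.symm.trans h3.symm)
    refine ⟨2 * a.re, ?_, ?_⟩
    · rw [hs, hab, Complex.add_conj]
    · have h3 : |a.re| ≤ 1 := by rw [← ha]; exact Complex.abs_re_le_norm a
      have h4 := abs_le.mp h3
      nlinarith
  choose x hx1 hx2 using hx
  have e2 : ∑ g : G, x g ^ 2 = ((∑ χ ∈ irrF G, n χ ^ 2 : ℤ) : ℝ) * Nat.card G := by
    have h3 : ∀ g : G, theta n g * theta n g⁻¹ = ((x g ^ 2 : ℝ) : ℂ) := by
      intro g
      rw [real_of_dd hθ h1 hd, hx1]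
      push_cast
      ring
    rw [Finset.sum_congr rfl (fun g _ => h3 g)] at e1
    exact_mod_cast e1
  have hcard : ∑ _g : G, (4 : ℝ) = 4 * Nat.card G := by
    rw [Finset.sum_const, Finset.card_univ, nsmul_eq_mul, ← Nat.card_eq_fintype_card]
    ring
  constructor
  · have h3 : ∑ g : G, x g ^ 2 ≤ ∑ _g : G, (4 : ℝ) := Finset.sum_le_sum fun g _ => hx2 g
    rw [hcard, e2] at h3
    have h4 := le_of_mul_le_mul_right h3 hGr
    exact_mod_cast h4
  · by_cases hall : ∀ g, x g ^ 2 = 4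
    · right
      intro χ hχ
      refine even_all hθ h1 hd (fun g => ?_) hχ (n := n χ) ?_
      · rw [hx1]
        have h3 : (x g - 2) * (x g + 2) = 0 := by linear_combination hall g
        rcases mul_eq_zero.mp h3 with h | h
        · left
          have : x g = 2 := by linarith
          rw [this]; simp
        · right
          have : x g = -2 := by linarith
          rw [this]; simp
      · rw [finsum_eq_sum_of_fintype]
        exact theta_pair n hχ
    · left
      push Not at hall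
      obtain ⟨g₀, hg₀⟩ := hall
      have h3 : ∑ g : G, x g ^ 2 < ∑ _g : G, (4 : ℝ) :=
        Finset.sum_lt_sum (fun g _ => hx2 g) ⟨g₀, Finset.mem_univ _, lt_of_le_of_ne (hx2 g₀) hg₀⟩
      rw [hcard, e2] at h3
      have h4 := lt_of_mul_lt_mul_right h3 hGr.le
      have h5 : ∑ χ ∈ irrF G, n χ ^ 2 < 4 := by exact_mod_cast h4
      omega

end

end Pool.Agent.Q7.TZ
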