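import Mathlib
import Pool.Agent.Q7.TZ.Cnt

/-!
# The shape for determinant one
-/

set_option autoImplicit false
set_option linter.unusedSectionVars false

open Representation

namespace Pool.Agent.Q7.TZ

open Pool.Agent.H302R2 Pool.Agent.H541R3.ART Pool.Agent.W446.AS

section

variable {G : Type} [Group G] [Finite G]

/-- `χ` is a symplectic character -/
def Sy (χ : G → ℂ) : Prop :=
  (∀ g, χ g⁻¹ = χ g) ∧ ∑ᶠ g, χ (g ^ 2) = -(Nat.card G : ℂ)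

/-- the set of the characters with multiplicity `-1` -/
def NegPart (n : (G → ℂ) → ℤ) (N : Finset (G → ℂ)) (m : ℕ) : Prop :=
  N.card ≤ m ∧ ∀ ψ ∈ N, ψ ∈ Irr G ∧ Sy ψ ∧ n ψ = -1

theorem shape_one (n : (G → ℂ) → ℤ) (hθ : IsHeilbronn (theta n : G → ℂ))
    (h1 : (theta n : G → ℂ) 1 = 2) (hd : ∀ g : G, dd (theta n) g = 1) :
    (∃ χ₀ ∈ Irr G, χ₀ 1 = 1 ∧ (∀ g, χ₀ g⁻¹ = χ₀ g) ∧ n χ₀ = 2 ∧
      ∀ χ ∈ Irr G, χ ≠ χ₀ → n χ = 0) ∨
    (∃ χ₀ ∈ Irr G, Sy χ₀ ∧ n χ₀ = 1 ∧ ∃ N, NegPart n N 2 ∧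
      ∀ χ ∈ Irr G, χ ≠ χ₀ → χ ∉ N → n χ = 0) ∨
    (∃ χ₀ ∈ Irr G, (∃ g, χ₀ g⁻¹ ≠ χ₀ g) ∧ n χ₀ = 1 ∧ n (fun g => χ₀ g⁻¹) = 1 ∧
      ∃ N, NegPart n N 1 ∧
        ∀ χ ∈ Irr G, χ ≠ χ₀ → χ ≠ (fun g => χ₀ g⁻¹) → χ ∉ N → n χ = 0) := by
  classical
  obtain ⟨χ₀, hχ₀, hn0, hoth, hcase⟩ := pattern n hθ h1 hd
  obtain ⟨h4, h3⟩ := sum_sq_le n hθ h1 hd
  set N : Finset (G → ℂ) := (irrF G).filter (fun χ => n χ = -1) with hN
  have hNsub : N ⊆ irrF G := Finset.filter_subset _ _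
  have hsub : ∀ S : Finset (G → ℂ), S ⊆ irrF G → ∑ χ ∈ S, n χ ^ 2 ≤ ∑ χ ∈ irrF G, n χ ^ 2 :=
    fun S hS => Finset.sum_le_sum_of_subset_of_nonneg hS (fun χ _ _ => sq_nonneg _)
  have hNs : ∑ χ ∈ N, n χ ^ 2 = N.card := by
    rw [Finset.sum_congr rfl (g := fun _ => (1 : ℤ)) (fun χ hχ => by
      rw [(Finset.mem_filter.mp hχ).2]; norm_num)]
    simp
  have h0N : χ₀ ∉ N := by
    intro h
    have := (Finset.mem_filter.mp h).2
    omega
  have hNsy : ∀ χ ∈ N, χ ≠ χ₀ → χ ≠ (fun g => χ₀ g⁻¹) → χ ∈ Irr G ∧ Sy χ ∧ n χ = -1 := by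
    intro χ hχ h5 h6
    have h7 := Finset.mem_filter.mp hχ
    have hχi := mem_irrF.mp h7.1
    rcases hoth χ hχi h5 h6 with h | ⟨-, hr, hs⟩
    · omega
    · exact ⟨hχi, ⟨hr, hs⟩, h7.2⟩
  have hreal := real_of_dd hθ h1 hd
  have hn1 := n_conj n hreal hχ₀
  have h1N : (fun g => χ₀ g⁻¹) ∉ N := by
    intro h
    have := (Finset.mem_filter.mp h).2
    omega
  have hNeg : ∀ χ ∈ N, χ ∈ Irr G ∧ Sy χ ∧ n χ = -1 := by
    intro χ hχ
    refine hNsy χ hχ ?_ ?_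
    · rintro rfl; exact h0N hχ
    · rintro rfl; exact h1N hχ
  have hz : ∀ χ ∈ Irr G, χ ≠ χ₀ → χ ≠ (fun g => χ₀ g⁻¹) → χ ∉ N → n χ = 0 := by
    intro χ hχ h5 h6 h7
    rcases hoth χ hχ h5 h6 with h | ⟨h, -⟩
    · exact h
    · exact absurd (Finset.mem_filter.mpr ⟨mem_irrF.mpr hχ, h⟩) h7
  rcases hcase with ⟨h2, hr, -⟩ | ⟨h2, hr, hs⟩ | ⟨h2, h2', hr⟩
  · left
    have hins := hsub (insert χ₀ N) (by
      intro x hx
      rcases Finset.mem_insert.mp hx with h | h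
      · rw [h]; exact mem_irrF.mpr hχ₀
      · exact hNsub h)
    rw [Finset.sum_insert h0N, hNs, h2] at hins
    have hcard : N.card = 0 := by
      have h5 : (2 : ℤ) ^ 2 + N.card ≤ 4 := hins.trans h4
      omega
    have hNe : N = ∅ := Finset.card_eq_zero.mp hcard
    have hz' : ∀ χ ∈ Irr G, χ ≠ χ₀ → n χ = 0 := by
      intro χ hχ h5
      refine hz χ hχ h5 ?_ (by rw [hNe]; simp)
      intro h6
      apply h5
      rw [h6]
      funext g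
      exact hr g
    refine ⟨χ₀, hχ₀, ?_, hr, h2, hz'⟩
    have h5 : (theta n : G → ℂ) 1 = 2 * χ₀ 1 := by
      rw [theta, Finset.sum_eq_single χ₀]
      · rw [h2]; push_cast; ring
      · intro χ hχ hne
        rw [hz' χ (mem_irrF.mp hχ) hne]; simp
      · intro h; exact absurd (mem_irrF.mpr hχ₀) h
    rw [h1] at h5
    linear_combination (-1 / 2 : ℂ) * h5
  · right; left
    have h3' : ∑ χ ∈ irrF G, n χ ^ 2 ≤ 3 := by
      rcases h3 with h | h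
      · exact h
      · have := h χ₀ hχ₀
        rw [h2] at this
        exact absurd this (by decide)
    have hins := hsub (insert χ₀ N) (by
      intro x hx
      rcases Finset.mem_insert.mp hx with h | h
      · rw [h]; exact mem_irrF.mpr hχ₀
      · exact hNsub h)
    rw [Finset.sum_insert h0N, hNs, h2] at hins
    refine ⟨χ₀, hχ₀, ⟨hr, hs⟩, h2, N, ⟨by omega, hNeg⟩, ?_⟩
    intro χ hχ h5 h7
    refine hz χ hχ h5 ?_ h7
    intro h6
    apply h5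
    rw [h6]
    funext g
    exact hr g
  · right; right
    have h3' : ∑ χ ∈ irrF G, n χ ^ 2 ≤ 3 := by
      rcases h3 with h | h
      · exact h
      · have := h χ₀ hχ₀
        rw [h2] at this
        exact absurd this (by decide)
    have hne : χ₀ ≠ (fun g => χ₀ g⁻¹) := by
      intro h
      obtain ⟨g, hg⟩ := hr
      exact hg (congrFun h g).symm
    have h0N' : χ₀ ∉ insert (fun g => χ₀ g⁻¹) N := by
      rw [Finset.mem_insert, not_or]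
      exact ⟨hne, h0N⟩
    have hins := hsub (insert χ₀ (insert (fun g => χ₀ g⁻¹) N)) (by
      intro x hx
      rcases Finset.mem_insert.mp hx with h | h
      · rw [h]; exact mem_irrF.mpr hχ₀
      · rcases Finset.mem_insert.mp h with h | h
        · rw [h]; exact mem_irrF.mpr (Pool.Agent.Q7.DB.irr_inv hχ₀)
        · exact hNsub h)
    rw [Finset.sum_insert h0N', Finset.sum_insert h1N, hNs, h2, h2'] at hins
    exact ⟨χ₀, hχ₀, hr, h2, h2', N, ⟨by omega, hNeg⟩, hz⟩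

end

end Pool.Agent.Q7.TZ
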