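import Mathlib
import Pool.Agent.Q7.TZ.Shp

/-!
# The double cover on which the determinant becomes a square
-/

set_option autoImplicit false
set_option linter.unusedSectionVars false

open Representation

namespace Pool.Agent.Q7.TZ

open Pool.Agent.H302R2 Pool.Agent.H541R3.ART Pool.Agent.W446.AS Pool.Agent.H302R5
  Pool.Agent.H302R6

section lin

variable {G : Type} [Group G] [Finite G]

/-- products of irreducible characters with linear characters -/
lemma irr_mul {χ : G → ℂ} (hχ : χ ∈ Irr G) (μ : G →* ℂˣ) :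
    (fun g => χ g * ((μ g : ℂˣ) : ℂ)) ∈ Irr G := by
  obtain ⟨n, ρ, hρ, rfl⟩ := exists_rep hχ
  let σ : Representation ℂ G (Fin n → ℂ) :=
    { toFun := fun g => ((μ g : ℂˣ) : ℂ) • ρ g
      map_one' := by rw [map_one, map_one, Units.val_one, one_smul]
      map_mul' := by
        intro a b
        rw [map_mul, map_mul, Units.val_mul, smul_mul_smul_comm] }
  have hσ : ∀ g, σ g = ((μ g : ℂˣ) : ℂ) • ρ g := fun g => rfl
  have h1 : σ.character = fun g => ρ.character g * ((μ g : ℂˣ) : ℂ) := by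
    funext g
    change LinearMap.trace ℂ _ (σ g) = LinearMap.trace ℂ _ (ρ g) * _
    rw [hσ, map_smul, smul_eq_mul, mul_comm]
  rw [← h1]
  refine irr_of_irred ⟨hρ.1, fun W hW => hρ.2 W fun g v hv => ?_⟩
  have h2 := hW g v hv
  rw [hσ, LinearMap.smul_apply] at h2
  have h3 := W.smul_mem ((((μ g)⁻¹ : ℂˣ) : ℂ)) h2
  rw [smul_smul, ← Units.val_mul, inv_mul_cancel, Units.val_one, one_smul] at h3
  exact h3

lemma irr_mul_inv {χ : G → ℂ} (hχ : χ ∈ Irr G) (μ : G →* ℂˣ) :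
    (fun g => χ g * (((μ g)⁻¹ : ℂˣ) : ℂ)) ∈ Irr G := by
  have := irr_mul hχ μ⁻¹
  exact this

lemma virt_mul_inv {θ : G → ℂ} (hθ : Virt θ) (μ : G →* ℂˣ) :
    Virt (fun g => θ g * (((μ g)⁻¹ : ℂˣ) : ℂ)) := by
  induction hθ using AddSubgroup.closure_induction with
  | mem χ hχ => exact AddSubgroup.subset_closure (irr_mul_inv hχ μ)
  | zero =>
    have : (fun g : G => (0 : G → ℂ) g * (((μ g)⁻¹ : ℂˣ) : ℂ)) = 0 := by
      funext g; simp
    rw [this]
    exact zero_mem (AddSubgroup.closure (Irr G))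
  | add a b _ _ ha hb =>
    have : (fun g : G => (a + b) g * (((μ g)⁻¹ : ℂˣ) : ℂ))
        = (fun g => a g * (((μ g)⁻¹ : ℂˣ) : ℂ)) + (fun g => b g * (((μ g)⁻¹ : ℂˣ) : ℂ)) := by
      funext g; simp [add_mul]
    rw [this]
    exact add_mem (S := AddSubgroup (G → ℂ)) ha hb
  | neg a _ ha =>
    have : (fun g : G => (-a) g * (((μ g)⁻¹ : ℂˣ) : ℂ))
        = -(fun g => a g * (((μ g)⁻¹ : ℂˣ) : ℂ)) := by
      funext g; simp
    rw [this]
    exact neg_mem (S := AddSubgroup (G → ℂ)) ha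

/-- a constituent of an inflated virtual character is inflated -/
lemma exists_of_infl {H : Type} [Group H] [Finite H] {π : H →* G} (hπ : Function.Surjective π)
    {θ : G → ℂ} (hθ : Virt θ) {χ' : H → ℂ} (hχ' : χ' ∈ Irr H)
    (hp : pr (fun x => θ (π x)) χ' ≠ 0) : ∃ χ ∈ Irr G, χ' = fun x => χ (π x) := by
  induction hθ using AddSubgroup.closure_induction with
  | mem χ hχ =>
    refine ⟨χ, hχ, ?_⟩
    by_contra hne
    exact hp (pr_ne (infl_irr hπ hχ) hχ' (fun h => hne h.symm))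
  | zero =>
    exfalso
    apply hp
    exact pr_zero_left χ'
  | add a b _ _ ha hb =>
    have h1 : pr (fun x => (a + b) (π x)) χ' = pr (fun x => a (π x)) χ' + pr (fun x => b (π x)) χ' :=
      pr_add _ _ _
    by_cases h2 : pr (fun x => a (π x)) χ' = 0
    · apply hb
      rw [h1, h2, zero_add] at hp
      exact hp
    · exact ha h2
  | neg a _ ha =>
    have h1 : pr (fun x => (-a) (π x)) χ' = - pr (fun x => a (π x)) χ' := pr_neg _ _
    apply ha
    intro h2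
    rw [h1, h2, neg_zero] at hp
    exact hp rfl

end lin

section cover

variable {G : Type} [Group G] [Finite G]

/-- the cover -/
def Gt (D : G →* ℂˣ) : Subgroup (G × rootsOfUnity (2 * Nat.card G) ℂ) where
  carrier := {x | D x.1 = (x.2 : ℂˣ) ^ 2}
  mul_mem' := by
    intro a b ha hb
    change D (a.1 * b.1) = ((a.2 : ℂˣ) * (b.2 : ℂˣ)) ^ 2
    rw [map_mul, ha, hb, mul_pow]
  one_mem' := by
    change D 1 = (1 : ℂˣ) ^ 2
    simp
  inv_mem' := by
    intro a ha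
    change D a.1⁻¹ = ((a.2 : ℂˣ)⁻¹) ^ 2
    rw [map_inv, ha, inv_pow]

instance : NeZero (2 * Nat.card G) := ⟨by have := Nat.card_pos (α := G); omega⟩

instance (D : G →* ℂˣ) : Finite (Gt D) := inferInstance

/-- the projection -/
noncomputable def pi1 (D : G →* ℂˣ) : Gt D →* G := (MonoidHom.fst _ _).comp (Gt D).subtype

/-- the square root of the determinant -/
noncomputable def rt (D : G →* ℂˣ) : Gt D →* ℂˣ :=
  (rootsOfUnity (2 * Nat.card G) ℂ).subtype.comp ((MonoidHom.snd _ _).comp (Gt D).subtype)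

lemma rt_sq (D : G →* ℂˣ) (x : Gt D) : (rt D x) ^ 2 = D (pi1 D x) := x.2.symm

lemma pi1_surj (D : G →* ℂˣ) : Function.Surjective (pi1 D) := by
  intro g
  obtain ⟨c, hc⟩ := IsAlgClosed.exists_pow_nat_eq ((D g : ℂˣ) : ℂ) (n := 2) (by norm_num)
  have hc0 : c ≠ 0 := by
    rintro rfl
    rw [zero_pow two_ne_zero] at hc
    exact (D g).ne_zero hc.symm
  let u : ℂˣ := Units.mk0 c hc0
  have hu : u ^ 2 = D g := by
    apply Units.ext
    rw [Units.val_pow_eq_pow_val, Units.val_mk0, hc]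
  have hu2 : u ∈ rootsOfUnity (2 * Nat.card G) ℂ := by
    rw [mem_rootsOfUnity, pow_mul, hu, ← map_pow, pow_card_eq_one', map_one]
  exact ⟨⟨(g, ⟨u, hu2⟩), hu.symm⟩, rfl⟩

/-- the section over the kernel of the determinant -/
lemma exists_lift_one (D : G →* ℂˣ) {t : G} (ht : D t = 1) :
    ∃ x : Gt D, pi1 D x = t ∧ rt D x = 1 := by
  refine ⟨⟨(t, 1), ?_⟩, rfl, rfl⟩
  change D t = (1 : ℂˣ) ^ 2
  rw [ht, one_pow]

/-- twisted inflation -/
noncomputable def lft (D : G →* ℂˣ) (χ : G → ℂ) : Gt D → ℂ :=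
  fun x => χ (pi1 D x) * (((rt D x)⁻¹ : ℂˣ) : ℂ)

lemma lft_one (D : G →* ℂˣ) (χ : G → ℂ) : lft D χ 1 = χ 1 := by
  unfold lft
  rw [map_one, map_one, inv_one, Units.val_one, mul_one]

lemma lft_inj (D : G →* ℂˣ) {χ χ' : G → ℂ} (h : lft D χ = lft D χ') : χ = χ' := by
  funext g
  obtain ⟨x, rfl⟩ := pi1_surj D g
  have h1 := congrFun h x
  unfold lft at h1
  exact mul_right_cancel₀ ((rt D x)⁻¹).ne_zero h1

lemma lft_irr (D : G →* ℂˣ) {χ : G → ℂ} (hχ : χ ∈ Irr G) : lft D χ ∈ Irr (Gt D) :=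
  irr_mul_inv (infl_irr (pi1_surj D) hχ) (rt D)

lemma pr_lft (D : G →* ℂˣ) (θ χ : G → ℂ) :
    pr (lft D θ) (lft D χ) = pr θ χ := by
  classical
  have : Fintype (Gt D) := Fintype.ofFinite _
  have : Fintype (pi1 D).ker := Fintype.ofFinite _
  have h1 : pr (lft D θ) (lft D χ) = pr (fun x => θ (pi1 D x)) (fun x => χ (pi1 D x)) := by
    rw [pr_eq, pr_eq]
    congr 1
    refine Finset.sum_congr rfl fun x _ => ?_
    unfold lft
    rw [map_inv (rt D), inv_inv]
    have h2 : (((rt D x)⁻¹ : ℂˣ) : ℂ) * ((rt D x : ℂˣ) : ℂ) = 1 := by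
      rw [← Units.val_mul, inv_mul_cancel, Units.val_one]
    linear_combination (θ (pi1 D x) * χ (pi1 D x⁻¹)) * h2
  rw [h1, ← pr_push (pi1_surj D)]
  congr 1
  funext y
  obtain ⟨x, rfl⟩ := pi1_surj D y
  rw [push_apply]
  have h3 : ∀ n : (pi1 D).ker, θ (pi1 D (x * n)) = θ (pi1 D x) := by
    intro n
    rw [map_mul, MonoidHom.mem_ker.mp n.2, mul_one]
  rw [Finset.sum_congr rfl (fun n _ => h3 n), Finset.sum_const, Finset.card_univ,
    nsmul_eq_mul, ← Nat.card_eq_fintype_card]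
  have h4 : (Nat.card (pi1 D).ker : ℂ) ≠ 0 := card_ne
  field_simp

lemma exists_of_lft (D : G →* ℂˣ) {θ : G → ℂ} (hθ : Virt θ) {χ' : Gt D → ℂ}
    (hχ' : χ' ∈ Irr (Gt D)) (hp : pr (lft D θ) χ' ≠ 0) : ∃ χ ∈ Irr G, χ' = lft D χ := by
  classical
  have : Fintype (Gt D) := Fintype.ofFinite _
  have h1 : pr (lft D θ) χ' = pr (fun x => θ (pi1 D x)) (fun x => χ' x * ((rt D x : ℂˣ) : ℂ)) := by
    rw [pr_eq, pr_eq]
    congr 1
    refine Finset.sum_congr rfl fun x _ => ?_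
    unfold lft
    rw [map_inv (rt D)]
    ring
  rw [h1] at hp
  obtain ⟨χ, hχ, h2⟩ := exists_of_infl (pi1_surj D) hθ (irr_mul hχ' (rt D)) hp
  refine ⟨χ, hχ, ?_⟩
  funext x
  have h3 := congrFun h2 x
  unfold lft
  rw [← h3, mul_assoc, ← Units.val_mul, mul_inv_cancel, Units.val_one, mul_one]

lemma lft_facts {D : G →* ℂˣ} {θ : G → ℂ} (hθ : IsHeilbronn θ) (hv : Virt θ) (h1 : θ 1 = 2)
    (hD : ∀ g, ((D g : ℂˣ) : ℂ) = dd θ g) :
    IsHeilbronn (lft D θ) ∧ Virt (lft D θ) ∧ lft D θ 1 = 2 ∧ ∀ x, dd (lft D θ) x = 1 := by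
  refine ⟨(hθ.comp (pi1 D)).twist (rt D), virt_mul_inv (hv.comp (pi1 D)) (rt D), ?_, ?_⟩
  · rw [lft_one, h1]
  · intro x
    have h2 := hD (pi1 D x)
    have h3 := congrArg (fun u : ℂˣ => (u : ℂ)) (rt_sq D x)
    simp only [Units.val_pow_eq_pow_val] at h3
    rw [h2] at h3
    unfold dd at h3
    unfold dd lft
    rw [map_pow, map_pow, Units.val_inv_eq_inv_val, Units.val_inv_eq_inv_val,
      Units.val_pow_eq_pow_val]
    have h4 : ((rt D x : ℂˣ) : ℂ) ≠ 0 := (rt D x).ne_zero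
    field_simp
    linear_combination -2 * h3

end cover

end Pool.Agent.Q7.TZ
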