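import Mathlib
import Pool.Agent.Q7.TZ.Cov

/-!
# The shape of Heilbronn characters of degree two
-/

set_option autoImplicit false
set_option linter.unusedSectionVars false

open Representation

namespace Pool.Agent.Q7.TZ

open Pool.Agent.H302R2 Pool.Agent.H541R3.ART Pool.Agent.W446.AS Pool.Agent.H302R5
  Pool.Agent.H302R6

section

variable {G : Type} [Group G] [Finite G]

/-- the dual of a character, twisted by a linear character -/
noncomputable def dual (D : G →* ℂˣ) (χ : G → ℂ) : G → ℂ := fun g => ((D g : ℂˣ) : ℂ) * χ g⁻¹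

/-- `χ` is a symplectic character for the determinant `D` -/
def Symplectic (D : G →* ℂˣ) (χ : G → ℂ) : Prop :=
  dual D χ = χ ∧ ∑ᶠ g, χ (g ^ 2) * (((D g)⁻¹ : ℂˣ) : ℂ) = -(Nat.card G : ℂ)

lemma lft_dual (D : G →* ℂˣ) (χ : G → ℂ) : (fun x => lft D χ x⁻¹) = lft D (dual D χ) := by
  funext x
  unfold lft dual
  rw [map_inv (pi1 D), map_inv (rt D), inv_inv, ← rt_sq D x, Units.val_pow_eq_pow_val,
    Units.val_inv_eq_inv_val]
  have h4 : ((rt D x : ℂˣ) : ℂ) ≠ 0 := (rt D x).ne_zero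
  field_simp

lemma sum_pi1 (D : G →* ℂˣ) [Fintype G] [Fintype (Gt D)] (F : G → ℂ) :
    ∑ x : Gt D, F (pi1 D x) = (Nat.card (pi1 D).ker : ℂ) * ∑ g : G, F g := by
  classical
  have : Fintype (pi1 D).ker := Fintype.ofFinite _
  have h1 := sum_push_all (pi1 D) (fun x => F (pi1 D x))
  have h2 : ∀ y : G, push (pi1 D) (fun x => F (pi1 D x)) y = F y := by
    intro y
    obtain ⟨x, rfl⟩ := pi1_surj D y
    rw [push_apply]
    have h3 : ∀ n : (pi1 D).ker, F (pi1 D (x * n)) = F (pi1 D x) := by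
      intro n
      rw [map_mul, MonoidHom.mem_ker.mp n.2, mul_one]
    rw [Finset.sum_congr rfl (fun n _ => h3 n), Finset.sum_const, Finset.card_univ,
      nsmul_eq_mul, ← Nat.card_eq_fintype_card]
    have h4 : (Nat.card (pi1 D).ker : ℂ) ≠ 0 := card_ne
    field_simp
  have h4 : (Nat.card (pi1 D).ker : ℂ) ≠ 0 := card_ne
  rw [finsum_eq_sum_of_fintype, Finset.sum_congr rfl (fun y _ => h2 y)] at h1
  rw [h1, ← mul_assoc, mul_inv_cancel₀ h4, one_mul]

lemma sy_lft (D : G →* ℂˣ) (χ : G → ℂ) : Sy (lft D χ) ↔ Symplectic D χ := by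
  classical
  have : Fintype G := Fintype.ofFinite _
  have : Fintype (Gt D) := Fintype.ofFinite _
  have h4 : (Nat.card (pi1 D).ker : ℂ) ≠ 0 := card_ne
  unfold Sy Symplectic
  apply and_congr
  · constructor
    · intro h
      apply lft_inj D
      rw [← lft_dual]
      exact funext h
    · intro h x
      have := congrFun (lft_dual D χ) x
      rw [h] at this
      exact this
  · rw [finsum_eq_sum_of_fintype, finsum_eq_sum_of_fintype]
    have h1 : ∑ x : Gt D, lft D χ (x ^ 2)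
        = (Nat.card (pi1 D).ker : ℂ) * ∑ g : G, χ (g ^ 2) * (((D g)⁻¹ : ℂˣ) : ℂ) := by
      rw [← sum_pi1 D (fun g => χ (g ^ 2) * (((D g)⁻¹ : ℂˣ) : ℂ))]
      refine Finset.sum_congr rfl fun x _ => ?_
      unfold lft
      rw [map_pow, map_pow, ← rt_sq D x]
    have h2 : (Nat.card (Gt D) : ℂ) = (Nat.card (pi1 D).ker : ℂ) * Nat.card G := by
      rw [card_eq_ker_mul (pi1_surj D)]
      push_cast
      ring
    rw [h1, h2]
    constructor
    · intro h
      apply mul_left_cancel₀ h4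
      rw [h]
      ring
    · intro h
      rw [h]
      ring

theorem shape_gen (n : (G → ℂ) → ℤ) (hθ : IsHeilbronn (theta n : G → ℂ))
    (h1 : (theta n : G → ℂ) 1 = 2) :
    ∃ D : G →* ℂˣ, (∀ g, ((D g : ℂˣ) : ℂ) = dd (theta n) g) ∧
      (∀ χ ∈ Irr G, dual D χ ∈ Irr G ∧ n (dual D χ) = n χ) ∧
      ((∃ μ : G →* ℂˣ, μ * μ = D ∧ n (fun g => ((μ g : ℂˣ) : ℂ)) = 2 ∧
          ∀ χ ∈ Irr G, χ ≠ (fun g => ((μ g : ℂˣ) : ℂ)) → n χ = 0) ∨
        (∃ χ₀ ∈ Irr G, Symplectic D χ₀ ∧ n χ₀ = 1 ∧ ∃ N : Finset (G → ℂ), N.card ≤ 2 ∧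
          (∀ ψ ∈ N, ψ ∈ Irr G ∧ Symplectic D ψ ∧ n ψ = -1) ∧
          ∀ χ ∈ Irr G, χ ≠ χ₀ → χ ∉ N → n χ = 0) ∨
        (∃ χ₀ ∈ Irr G, dual D χ₀ ≠ χ₀ ∧ n χ₀ = 1 ∧ n (dual D χ₀) = 1 ∧
          ∃ N : Finset (G → ℂ), N.card ≤ 1 ∧
          (∀ ψ ∈ N, ψ ∈ Irr G ∧ Symplectic D ψ ∧ n ψ = -1) ∧
          ∀ χ ∈ Irr G, χ ≠ χ₀ → χ ≠ dual D χ₀ → χ ∉ N → n χ = 0)) ∧
      ∀ t : G, D t = 1 → (∀ χ ∈ Irr G, n χ ≠ 0 → χ (t * t) = χ 1) →
        ∃ ε : ℂ, (ε = 1 ∨ ε = -1) ∧ ∀ χ ∈ Irr G, n χ ≠ 0 → χ t = ε * χ 1 := by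
  classical
  have hv : Virt (theta n : G → ℂ) := theta_virt n
  obtain ⟨D, hD⟩ := hθ.exists_det h1
  obtain ⟨f1, f2, f3, f4⟩ := lft_facts hθ hv h1 hD
  obtain ⟨n', hn', hpr⟩ := virt_theta f2
  -- multiplicities of the lifts
  have hlift : ∀ χ ∈ Irr G, n' (lft D χ) = n χ := by
    intro χ hχ
    have h2 := hpr _ (lft_irr D hχ)
    rw [pr_lft, pr_theta n hχ] at h2
    exact_mod_cast h2.symm
  have hof : ∀ χ' ∈ Irr (Gt D), n' χ' ≠ 0 → ∃ χ ∈ Irr G, χ' = lft D χ ∧ n χ = n' χ' := by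
    intro χ' hχ' hne
    obtain ⟨χ, hχ, h2⟩ := exists_of_lft D hv hχ' (by
      rw [hpr _ hχ']
      exact_mod_cast hne)
    exact ⟨χ, hχ, h2, by rw [h2, hlift χ hχ]⟩
  have hdual : ∀ χ ∈ Irr G, dual D χ ∈ Irr G := by
    intro χ hχ
    have h2 := irr_mul (Pool.Agent.Q7.DB.irr_inv hχ) D
    have h3 : (fun g => χ g⁻¹ * ((D g : ℂˣ) : ℂ)) = dual D χ := by
      funext g
      exact mul_comm _ _
    rw [← h3]
    exact h2
  have f1' : IsHeilbronn (theta n' : Gt D → ℂ) := by rw [← hn']; exact f1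
  have f3' : (theta n' : Gt D → ℂ) 1 = 2 := by rw [← hn']; exact f3
  have f4' : ∀ x : Gt D, dd (theta n') x = 1 := by rw [← hn']; exact f4
  have hreal := real_of_dd f1' f3' f4'
  have hdn : ∀ χ ∈ Irr G, n (dual D χ) = n χ := by
    intro χ hχ
    rw [← hlift _ (hdual χ hχ), ← hlift χ hχ, ← lft_dual]
    exact n_conj n' hreal (lft_irr D hχ)
  -- transfer of the negative part
  have hneg : ∀ (N' : Finset (Gt D → ℂ)) (m : ℕ), NegPart n' N' m →
      ∃ N : Finset (G → ℂ), N.card ≤ m ∧ (∀ ψ ∈ N, ψ ∈ Irr G ∧ Symplectic D ψ ∧ n ψ = -1) ∧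
        ∀ χ ∈ Irr G, lft D χ ∈ N' → χ ∈ N := by
    intro N' m hN'
    refine ⟨(irrF G).filter (fun χ => lft D χ ∈ N'), ?_, ?_, ?_⟩
    · refine le_trans ?_ hN'.1
      apply Finset.card_le_card_of_injOn (lft D)
      · intro χ hχ
        exact (Finset.mem_filter.mp hχ).2
      · intro χ _ χ' _ h
        exact lft_inj D h
    · intro ψ hψ
      have h2 := Finset.mem_filter.mp hψ
      have h3 := hN'.2 _ h2.2
      have h4 := mem_irrF.mp h2.1
      exact ⟨h4, (sy_lft D ψ).mp h3.2.1, by rw [← hlift ψ h4, h3.2.2]⟩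
    · intro χ hχ h2
      exact Finset.mem_filter.mpr ⟨mem_irrF.mpr hχ, h2⟩
  refine ⟨D, hD, fun χ hχ => ⟨hdual χ hχ, hdn χ hχ⟩, ?_, ?_⟩
  · rcases shape_one n' f1' f3' f4' with ⟨χ', hχ', e1, e2, e3, e4⟩ | ⟨χ', hχ', e1, e2, N', e3, e4⟩ |
      ⟨χ', hχ', e1, e2, e2', N', e3, e4⟩
    · left
      obtain ⟨χ₀, hχ₀, rfl, h5⟩ := hof χ' hχ' (by rw [e3]; norm_num)
      rw [lft_one] at e1
      obtain ⟨μ, hμ⟩ := (irr_heilbronn hχ₀).deg_one e1
      have hμ' : χ₀ = fun g => ((μ g : ℂˣ) : ℂ) := funext hμ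
      refine ⟨μ, ?_, ?_, ?_⟩
      · ext g
        obtain ⟨x, rfl⟩ := pi1_surj D g
        have h6 := e2 x
        have h7 := congrFun (lft_dual D χ₀) x
        rw [h7] at h6
        unfold lft dual at h6
        have h8 := mul_right_cancel₀ ((rt D x)⁻¹).ne_zero h6
        rw [hμ, hμ, map_inv, Units.val_inv_eq_inv_val] at h8
        have h9 : ((μ (pi1 D x) : ℂˣ) : ℂ) ≠ 0 := (μ (pi1 D x)).ne_zero
        rw [MonoidHom.mul_apply, Units.val_mul]
        field_simp at h8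
        linear_combination -h8
      · rw [← hμ', h5, e3]
      · intro χ hχ hne
        rw [← hlift χ hχ]
        apply e4 _ (lft_irr D hχ)
        intro h6
        apply hne
        rw [← hμ']
        exact lft_inj D h6
    · right; left
      obtain ⟨χ₀, hχ₀, rfl, h5⟩ := hof χ' hχ' (by rw [e2]; norm_num)
      obtain ⟨N, h6, h7, h8⟩ := hneg N' 2 e3
      refine ⟨χ₀, hχ₀, (sy_lft D χ₀).mp e1, by rw [h5, e2], N, h6, h7, ?_⟩
      intro χ hχ hne hN
      rw [← hlift χ hχ]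
      apply e4 _ (lft_irr D hχ)
      · intro h9; exact hne (lft_inj D h9)
      · intro h9; exact hN (h8 χ hχ h9)
    · right; right
      obtain ⟨χ₀, hχ₀, rfl, h5⟩ := hof χ' hχ' (by rw [e2]; norm_num)
      obtain ⟨N, h6, h7, h8⟩ := hneg N' 1 e3
      refine ⟨χ₀, hχ₀, ?_, by rw [h5, e2], ?_, N, h6, h7, ?_⟩
      · intro h9
        obtain ⟨x, hx⟩ := e1
        apply hx
        have h10 := congrFun (lft_dual D χ₀) x
        rw [h9] at h10
        exact h10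
      · rw [hdn χ₀ hχ₀, h5, e2]
      · intro χ hχ hne hne' hN
        rw [← hlift χ hχ]
        apply e4 _ (lft_irr D hχ)
        · intro h9; exact hne (lft_inj D h9)
        · intro h9
          rw [lft_dual] at h9
          exact hne' (lft_inj D h9)
        · intro h9; exact hN (h8 χ hχ h9)
  · intro t ht hK
    obtain ⟨x, hx1, hx2⟩ := exists_lift_one D ht
    have hval : ∀ χ : G → ℂ, lft D χ x = χ t := by
      intro χ
      unfold lft
      rw [hx1, hx2, inv_one, Units.val_one, mul_one]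
    have hval2 : ∀ χ : G → ℂ, lft D χ (x * x) = χ (t * t) := by
      intro χ
      unfold lft
      rw [map_mul, map_mul, hx1, hx2, mul_one, inv_one, Units.val_one, mul_one]
    obtain ⟨ε, hε, -, h3⟩ := invol_mod f1 f2 f3 f4 (t := x) (by
      rw [mem_kerS]
      intro χ' hχ' hp
      obtain ⟨χ, hχ, h2⟩ := exists_of_lft D hv hχ' hp
      rw [h2, hval2, lft_one]
      apply hK χ hχ
      intro h0
      apply hp
      rw [h2, pr_lft, pr_theta n hχ, h0]
      simp)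
    refine ⟨(ε : ℂ), ?_, ?_⟩
    · rcases hε with h | h
      · left; rw [h]; simp
      · right; rw [h]; simp
    · intro χ hχ hne
      have h4 := h3 _ (lft_irr D hχ) (by
        rw [pr_lft, pr_theta n hχ]
        exact_mod_cast hne)
      rw [hval, lft_one] at h4
      exact h4

end

end Pool.Agent.Q7.TZ
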