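import Mathlib
import Pool.Agent.Q7.TZ.Gen

/-!
# The dichotomy at double zeros
-/

set_option autoImplicit false
set_option linter.unusedSectionVars false

open Representation

namespace Pool.Agent.Q7.TZ

open Pool.Agent.H302R2 Pool.Agent.H541R3.ART Pool.Agent.W446.AS Pool.Agent.H302R5
  Pool.Agent.H302R6 Pool.Agent.Y788.V Pool.Agent.Y788 Pool.Agent.TH820 Pool.Agent.H302R10
  Subgroup

section

variable {G : Type} [Group G] [Finite G] {s₀ : ℂ}

/-- the case of a function which is constant on the residual -/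
theorem artin_of_const (A : ArtinData G s₀) {r : ℕ} (hr2 : r ≤ 2)
    (hr : meromorphicOrderAt (A.Lin ⊥ 1) s₀ = (r : WithTop ℤ))
    (hres : ∀ a ∈ res G, (theta A.ord : G → ℂ) a = (theta A.ord : G → ℂ) 1) :
    (∀ χ ∈ Irr G, (∃ n ∈ res G, χ n ≠ χ 1) → meromorphicOrderAt (A.L χ) s₀ = 0) ∧
    (Nonempty (LTData A) → ∀ χ ∈ Irr G, 0 ≤ meromorphicOrderAt (A.L χ) s₀) := by
  classical
  have : Fintype G := Fintype.ofFinite G
  set θ : G → ℂ := theta A.ord with hθdef
  have hθ : IsHeilbronn θ := A.isHeilbronn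
  have hv : Virt θ := theta_virt _
  have h1 : θ 1 = r := A.theta_one hr
  have hconst := const_of_kernel hθ (res G) hres
  have hzero : ∀ χ ∈ Irr G, (∃ n ∈ res G, χ n ≠ χ 1) → meromorphicOrderAt (A.L χ) s₀ = 0 := by
    rintro χ hχ ⟨x, hxN, hx⟩
    have h3 := pair_zero (θ := θ) hχ (res G) hconst hxN hx
    have h4 : pr θ χ = ((0 : ℤ) : ℂ) := by
      rw [pr_eq, h3, mul_zero]
      simp
    have h5 := ord_of_pr A hχ h4
    simpa using h5
  refine ⟨hzero, fun hT χ hχ => ?_⟩
  by_cases h2 : ∃ x ∈ res G, χ x ≠ χ 1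
  · exact (hzero χ hχ h2).ge
  push Not at h2
  let π : G →* G ⧸ res G := QuotientGroup.mk' (res G)
  have hπ : Function.Surjective π := QuotientGroup.mk'_surjective _
  have hker : π.ker = res G := QuotientGroup.ker_mk' _
  have : Fintype π.ker := Fintype.ofFinite _
  let τ : G ⧸ res G → ℂ := Pool.Agent.H302R5.push π θ
  have hτ1 : IsHeilbronn τ := push_isHeilbronn hπ hθ
  have hτ2 : Virt τ := hv.push hπ
  have hτ3 : ∀ g, τ (π g) = θ g := by
    intro g
    change Pool.Agent.H302R5.push π θ (π g) = θ g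
    rw [push_apply]
    have h5 : ∀ z : π.ker, θ (g * z) = θ g := by
      intro z
      have hz : (z : G) ∈ res G := hker.le z.2
      have h6 : g * z = (g * z * g⁻¹) * g := by group
      have h7 : g * z * g⁻¹ ∈ res G := (res_normal G).conj_mem _ hz g
      rw [h6, hconst _ h7]
    rw [Finset.sum_congr rfl (fun z _ => h5 z), Finset.sum_const, Finset.card_univ, nsmul_eq_mul,
      ← Nat.card_eq_fintype_card, ← mul_assoc, inv_mul_cancel₀ card_ne, one_mul]
  obtain ⟨n, ρ, hρ, rfl⟩ := exists_rep hχ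
  have htriv : ∀ g ∈ π.ker, ρ g = 1 := by
    intro g hg
    rw [hker] at hg
    exact rep_triv ρ (h2 g hg)
  obtain ⟨ψ, hψ, h3⟩ := descend_irr hπ hρ htriv
  have hfree : Free True r (G ⧸ res G) := free_lt (by omega) (fun _ => hr2) (fun _ => by omega)
    (fun _ => by omega)
  obtain ⟨k, hk⟩ := fmain True r _ (G ⧸ res G) rfl inferInstance hfree τ hτ1 hτ2 ⟨r, le_rfl, by
    rw [← map_one π, hτ3, h1]⟩ (fun _ => hT.elim fun B => twoPos_descend B hπ hτ3) ψ hψ
  apply order_nonneg A hχ
  refine ⟨k, ?_⟩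
  rw [← hk]
  change _ = pr (Pool.Agent.H302R5.push π θ) ψ
  rw [pr_push hπ]
  congr 1
  funext g
  exact h3 g

/-- the dichotomy for functions -/
theorem dich {θ : G → ℂ} (hθ : IsHeilbronn θ) (hv : Virt θ) {r : ℕ} (hr2 : r ≤ 2)
    (h1 : θ 1 = r) : (∀ a ∈ res G, θ a = θ 1) ∨
    (r = 2 ∧ ∃ (K : Subgroup (res G)) (_ : K.Normal), (∃! t : res G ⧸ K, t ≠ 1 ∧ t * t = 1) ∧
      ∀ χ ∈ Irr G, pr θ χ ≠ 0 → (∀ k ∈ K, χ k = χ 1) ∧
        ∀ z : res G, z ∉ K → z * z ∈ K → χ z = -χ 1) := by
  classical
  have : Fintype G := Fintype.ofFinite G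
  have hperf := res_perfect G
  by_cases hr : r = 2
  swap
  · left
    have hcases : r = 0 ∨ r = 1 := by omega
    rcases hcases with rfl | rfl
    · intro a _
      have h2 := hθ.norm_le a
      rw [h1] at h2 ⊢
      simpa using h2
    · intro a ha
      obtain ⟨ψ, hψ⟩ := hθ.deg_one (by rw [h1]; simp)
      have h2 := perfect_hom hperf (ψ.comp (res G).subtype) ⟨a, ha⟩
      have h3 : ψ a = 1 := h2
      rw [hψ, hψ, h3, map_one]
  subst hr
  have h1' : θ 1 = 2 := by rw [h1]; simp
  obtain ⟨n, rfl, hn⟩ := virt_theta hv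
  obtain ⟨D, hD, -, -, hinv⟩ := shape_gen n hθ h1'
  have hD1 : ∀ z ∈ res G, D z = 1 := by
    intro z hz
    exact perfect_hom hperf (D.comp (res G).subtype) ⟨z, hz⟩
  have hne : ∀ χ ∈ Irr G, (pr (theta n) χ ≠ 0 ↔ n χ ≠ 0) := by
    intro χ hχ
    rw [hn χ hχ]
    exact Int.cast_ne_zero
  set K : Subgroup (res G) := (KerS (theta n : G → ℂ)).subgroupOf (res G) with hK
  have hKn : K.Normal := Subgroup.Normal.subgroupOf inferInstance _
  have hKmem : ∀ x : res G, x ∈ K ↔ (x : G) ∈ KerS (theta n : G → ℂ) := fun x =>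
    Subgroup.mem_subgroupOf
  -- involutions
  have hsgn : ∀ z : res G, z ∉ K → z * z ∈ K → ∀ χ ∈ Irr G, n χ ≠ 0 → χ z = -χ 1 := by
    intro z hz hzz
    rw [hKmem, Subgroup.coe_mul, mem_kerS] at hzz
    obtain ⟨ε, hε, h2⟩ := hinv z (hD1 z z.2) (fun χ hχ hnχ => hzz χ hχ ((hne χ hχ).mpr hnχ))
    rcases hε with h | h
    · exfalso
      apply hz
      rw [hKmem, mem_kerS]
      intro χ hχ hp
      rw [h2 χ hχ ((hne χ hχ).mp hp), h, one_mul]
    · intro χ hχ hnχ
      rw [h2 χ hχ hnχ, h]
      ring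
  by_cases hodd : ∀ t : res G ⧸ K, t * t = 1 → t = 1
  · left
    -- odd order
    have hM := rigid_odd (M := res G ⧸ K) inferInstance hodd
    have hf1 := hθ.comp (res G).subtype
    have hf2 := hv.comp (res G).subtype
    let π : res G →* res G ⧸ K := QuotientGroup.mk' K
    have hπ : Function.Surjective π := QuotientGroup.mk'_surjective _
    have : Fintype (res G) := Fintype.ofFinite _
    have : Fintype π.ker := Fintype.ofFinite _
    have hker : π.ker = K := QuotientGroup.ker_mk' _
    have hτ3 : ∀ g, push π (fun x : res G => theta n ((res G).subtype x)) (π g)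
        = theta n (g : G) := by
      intro g
      rw [push_apply]
      have h5 : ∀ z : π.ker, theta n ((res G).subtype (g * z)) = theta n (g : G) := by
        intro z
        have hz : (z : res G) ∈ K := hker.le z.2
        rw [hKmem] at hz
        exact theta_kerS hv (g : G) hz
      rw [Finset.sum_congr rfl (fun z _ => h5 z), Finset.sum_const, Finset.card_univ, nsmul_eq_mul,
        ← Nat.card_eq_fintype_card, ← mul_assoc, inv_mul_cancel₀ card_ne, one_mul]
    intro a ha
    have h5 := hM _ (push_isHeilbronn hπ hf1) (hf2.push hπ) 2 le_rfl (by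
      rw [← map_one π, hτ3, OneMemClass.coe_one, h1']; simp) (π ⟨a, ha⟩)
    rw [hτ3] at h5
    rw [← map_one π, hτ3] at h5
    exact h5
  · right
    push Not at hodd
    obtain ⟨t, ht, ht1⟩ := hodd
    refine ⟨rfl, K, hKn, ⟨t, ⟨ht1, ht⟩, ?_⟩, ?_⟩
    · rintro u ⟨hu1, hu⟩
      obtain ⟨t, rfl⟩ := QuotientGroup.mk_surjective t
      obtain ⟨u, rfl⟩ := QuotientGroup.mk_surjective u
      have key : ∀ t : res G, (t : res G ⧸ K) * t = 1 → (t : res G ⧸ K) ≠ 1 →
          t ∉ K ∧ t * t ∈ K := by
        intro t ht ht1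
        refine ⟨fun h => ht1 ((QuotientGroup.eq_one_iff _).mpr h), ?_⟩
        rw [← QuotientGroup.mk_mul] at ht
        exact (QuotientGroup.eq_one_iff _).mp ht
      obtain ⟨a1, a2⟩ := key t ht ht1
      obtain ⟨b1, b2⟩ := key u hu hu1
      rw [eq_comm, QuotientGroup.eq, hKmem]
      intro m ρ hρ hp
      have hχ := irr_of_irred hρ
      have hnn := (hne _ hχ).mp hp
      have hneg : ∀ x : G, ρ.character x = -ρ.character 1 → ∀ v, ρ x v = -v := by
        intro x hx v
        have hm : ‖ρ.character x‖ = m := by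
          rw [hx, norm_neg, Representation.char_one, Module.finrank_fin_fun]
          simp
        obtain ⟨c, hc⟩ := rep_scal ρ hm
        have hm0 : (m : ℂ) ≠ 0 := by
          have := hρ.1
          have h5 : 0 < m := by
            rcases Nat.eq_zero_or_pos m with h0 | h0
            · subst h0
              exact absurd this (not_nontrivial_iff_subsingleton.mpr inferInstance)
            · exact h0
          exact_mod_cast h5.ne'
        have h6 : ρ.character x = c * m := by
          change LinearMap.trace ℂ _ (ρ x) = _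
          rw [hc, map_smul, smul_eq_mul, LinearMap.trace_one, Module.finrank_fin_fun]
        rw [hx, Representation.char_one, Module.finrank_fin_fun] at h6
        have h7 : c = -1 := by
          have : (c + 1) * (m : ℂ) = 0 := by linear_combination -h6
          have := (mul_eq_zero.mp this).resolve_right hm0
          linear_combination this
        rw [hc, h7, LinearMap.smul_apply, neg_smul, one_smul]
        rfl
      have h2 := hneg _ (hsgn t a1 a2 _ hχ hnn)
      have h3 := hneg _ (hsgn u b1 b2 _ hχ hnn)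
      have h4 : ∀ v, ρ (t : G)⁻¹ v = -v := by
        intro v
        have h5 : ρ (t : G)⁻¹ (ρ (t : G) (-v)) = -v := by
          rw [← Module.End.mul_apply, ← map_mul, inv_mul_cancel, map_one, Module.End.one_apply]
        rw [h2, neg_neg] at h5
        exact h5
      refine LinearMap.ext fun v => ?_
      rw [Subgroup.coe_mul, Subgroup.coe_inv, map_mul, Module.End.mul_apply, h3, h4, neg_neg,
        Module.End.one_apply]
    · intro χ hχ hp
      refine ⟨fun k hk => ?_, fun z hz hzz => hsgn z hz hzz χ hχ ((hne χ hχ).mp hp)⟩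
      rw [hKmem, mem_kerS] at hk
      exact hk χ hχ hp

end

end Pool.Agent.Q7.TZ
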